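import Pool.Agent.R206.GD.Defs

/-!
GD-ALG: four inequalities between real numbers.
-/

set_option autoImplicit false

namespace Pool.Agent.R206.GD

theorem algx_mul {a b A B : ℝ} (ha : |a| ≤ A) (hb : |b| ≤ B) : |a * b| ≤ A * B := by
  rw [abs_mul]
  exact mul_le_mul ha hb (abs_nonneg _) ((abs_nonneg _).trans ha)

theorem algx_add {a b A B : ℝ} (ha : |a| ≤ A) (hb : |b| ≤ B) : |a + b| ≤ A + B :=
  (abs_add_le a b).trans (add_le_add ha hb)

theorem algx_sub {a b A B : ℝ} (ha : |a| ≤ A) (hb : |b| ≤ B) : |a - b| ≤ A + B := by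
  rw [sub_eq_add_neg]
  exact algx_add ha (by rwa [abs_neg])

theorem algx_lmul {a a' b b' A B x y D : ℝ} (ha : |a| ≤ A) (hb : |b'| ≤ B)
    (h1 : |a - a'| ≤ x * D) (h2 : |b - b'| ≤ y * D) : |a * b - a' * b'| ≤ (A * y + x * B) * D := by
  have e : a * b - a' * b' = a * (b - b') + (a - a') * b' := by ring
  rw [e]
  refine (algx_add (algx_mul ha h2) (algx_mul h1 hb)).trans (le_of_eq ?_)
  ring

theorem algx_ladd {a a' b b' x y D : ℝ}
    (h1 : |a - a'| ≤ x * D) (h2 : |b - b'| ≤ y * D) : |(a + b) - (a' + b')| ≤ (x + y) * D := by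
  have e : (a + b) - (a' + b') = (a - a') + (b - b') := by ring
  rw [e]
  refine (algx_add h1 h2).trans (le_of_eq ?_)
  ring

theorem algx_lsub {a a' b b' x y D : ℝ}
    (h1 : |a - a'| ≤ x * D) (h2 : |b - b'| ≤ y * D) : |(a - b) - (a' - b')| ≤ (x + y) * D := by
  have e : (a - b) - (a' - b') = (a - a') - (b - b') := by ring
  rw [e]
  refine (algx_sub h1 h2).trans (le_of_eq ?_)
  ring

theorem algx_w {x C D : ℝ} (h : |x| ≤ C) (h' : C ≤ D) : |x| ≤ D := h.trans h'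

/-- the inverse of `1 - e M` -/
theorem algx_inv {e M : ℝ} (he : |e| ≤ 1 / 10 ^ 11) (hM : |M| ≤ 20) :
    1 / 2 ≤ 1 - e * M ∧ |(1 - e * M)⁻¹| ≤ 2 := by
  have h := algx_mul he hM
  have h1 : e * M ≤ 1 / 2 := (le_abs_self _).trans (h.trans (by norm_num))
  have h2 : 1 / 2 ≤ 1 - e * M := by linarith
  refine ⟨h2, ?_⟩
  rw [abs_inv, abs_of_pos (by linarith), inv_le_comm₀ (by linarith) (by norm_num)]
  linarith

theorem algx_linv {e M M' D : ℝ} (he : |e| ≤ 1 / 10 ^ 11) (hM : |M| ≤ 20) (hM' : |M'| ≤ 20)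
    (h : |M - M'| ≤ 2 * D) :
    |(1 - e * M)⁻¹ - (1 - e * M')⁻¹| ≤ (8 / 10 ^ 11) * D := by
  obtain ⟨h1, h2⟩ := algx_inv he hM
  obtain ⟨h1', h2'⟩ := algx_inv he hM'
  have e1 : (1 - e * M)⁻¹ - (1 - e * M')⁻¹ = (e * (M - M')) * ((1 - e * M)⁻¹ * (1 - e * M')⁻¹) := by
    have n1 : 1 - e * M ≠ 0 := by linarith
    have n2 : 1 - e * M' ≠ 0 := by linarith
    field_simp
    ring
  rw [e1]
  refine (algx_mul (algx_mul he h) (algx_mul h2 h2')).trans (le_of_eq ?_)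
  ring

theorem alg_Q {E e eta u v w p M b : ℝ} (hE : 0 < E) (hE1 : E ≤ 1) (he : 0 < e) (he1 : e ≤ eta)
    (heta : eta ≤ 1 / 10 ^ 11) (hu : |u| ≤ 3 * E) (hv : |v| ≤ 6 * E)
    (hw : |w| ≤ 11 / 10 ^ 5 * E) (hp : |p| ≤ 11 / 10 ^ 5 * E) (hM : |M| ≤ 20 * E)
    (hb : |b| ≤ 20 * eta * E) :
    |Qf e u v w p M b| ≤ 1 / 10 ^ 6 * E := by
  have he2 : |e| ≤ 1 / 10 ^ 11 := by rw [abs_of_pos he]; linarith
  have hM2 : |M| ≤ 20 := by linarith
  obtain ⟨-, hi⟩ := algx_inv he2 hM2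
  have hb2 : |b| ≤ (2 / 10 ^ 10) * E := hb.trans (by nlinarith)
  have hU : |u + w| ≤ 4 * E := algx_w (algx_add hu hw) (by linarith)
  have hU2 : |u + w| ≤ 4 := by linarith
  have hvp : |v + p| ≤ 7 := algx_w (algx_add hv hp) (by linarith)
  have t1 : |w * w| ≤ (11 / 10 ^ 5 * E) * (11 / 10 ^ 5) := algx_mul hw (by linarith)
  have t2 : |b * (v + p) * (1 - e * M)⁻¹| ≤ (2 / 10 ^ 10) * E * 7 * 2 :=
    algx_mul (algx_mul hb2 hvp) hi
  have tx : |M - (u + w) - e * M * (u + w)| ≤ 25 :=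
    algx_w (algx_sub (algx_sub hM2 hU2) (algx_mul (algx_mul he2 hM2) hU2)) (by norm_num)
  have ty : |u + w - 1| ≤ 5 :=
    algx_w (algx_sub hU2 (show |(1 : ℝ)| ≤ 1 by norm_num)) (by norm_num)
  have t3 : |e * (M - (u + w) - e * M * (u + w)) * (u + w) * (u + w - 1)| ≤
      1 / 10 ^ 11 * 25 * (4 * E) * 5 :=
    algx_mul (algx_mul (algx_mul he2 tx) hU) ty
  have e0 : Qf e u v w p M b = (-4) * (w * w) + 2 * (b * (v + p) * (1 - e * M)⁻¹) -
      4 * (e * (M - (u + w) - e * M * (u + w)) * (u + w) * (u + w - 1)) := by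
    unfold Qf
    rw [div_eq_mul_inv]
    ring
  rw [e0]
  have n4 : |(-4 : ℝ)| ≤ 4 := by norm_num
  have n2 : |(2 : ℝ)| ≤ 2 := by norm_num
  have n4' : |(4 : ℝ)| ≤ 4 := by norm_num
  exact algx_w (algx_sub (algx_add (algx_mul n4 t1) (algx_mul n2 t2)) (algx_mul n4' t3))
    (by linarith)

theorem alg_F {E e eta s u w M : ℝ} (hE : 0 < E) (hE1 : E ≤ 1) (he : 0 < e) (he1 : e ≤ eta)
    (heta : eta ≤ 1 / 10 ^ 11) (hs : 1 / 2 ≤ s) (hs1 : s ≤ 51 / 100) (hu : |u| ≤ 3 * E)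
    (hw : |w| ≤ 11 / 10 ^ 5 * E) (hM : |M| ≤ 20 * E) :
    |Ff e s (u + w) M| ≤ 10 * E := by
  have he2 : |e| ≤ 1 / 10 ^ 11 := by rw [abs_of_pos he]; linarith
  have hM2 : |M| ≤ 20 := by linarith
  have hs2 : |s| ≤ 51 / 100 := by rw [abs_of_pos (by linarith)]; exact hs1
  have hU : |u + w| ≤ (301 / 100) * E := algx_w (algx_add hu hw) (by linarith)
  have hU2 : |u + w| ≤ 301 / 100 := by linarith
  have t1 : |e * (M * M)| ≤ 1 / 10 ^ 11 * (20 * E * 20) := algx_mul he2 (algx_mul hM hM2)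
  have t2 : |1 - e * e * (M * M)| ≤ 101 / 100 :=
    algx_w (algx_sub (show |(1 : ℝ)| ≤ 1 by norm_num)
      (algx_mul (algx_mul he2 he2) (algx_mul hM2 hM2))) (by norm_num)
  have t3 : |2 - e * (u + w)| ≤ 201 / 100 :=
    algx_w (algx_sub (show |(2 : ℝ)| ≤ 2 by norm_num) (algx_mul he2 hU2)) (by norm_num)
  have e0 : Ff e s (u + w) M = e * (M * M) + (1 - e * e * (M * M)) * s * (u + w) *
      (2 - e * (u + w)) := by
    unfold Ff
    ring
  rw [e0]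
  exact algx_w (algx_add t1 (algx_mul (algx_mul (algx_mul t2 hs2) hU) t3)) (by linarith)

theorem alg_Q_lip {E e eta u v w p M b w' p' M' b' d : ℝ} (hE : 0 < E) (hE1 : E ≤ 1)
    (he : 0 < e) (he1 : e ≤ eta)
    (heta : eta ≤ 1 / 10 ^ 11) (hu : |u| ≤ 3 * E) (hv : |v| ≤ 6 * E)
    (hw : |w| ≤ 11 / 10 ^ 5 * E) (hp : |p| ≤ 11 / 10 ^ 5 * E) (hM : |M| ≤ 20 * E)
    (hb : |b| ≤ 20 * eta * E)
    (hw' : |w'| ≤ 11 / 10 ^ 5 * E) (hp' : |p'| ≤ 11 / 10 ^ 5 * E) (hM' : |M'| ≤ 20 * E)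
    (hb' : |b'| ≤ 20 * eta * E) (hd : 0 ≤ d)
    (dw : |w - w'| ≤ 11 / 100 * d * E) (dp : |p - p'| ≤ 11 / 100 * d * E)
    (dM : |M - M'| ≤ 2 * d * E) (db : |b - b'| ≤ 2 * eta * d * E) :
    |Qf e u v w p M b - Qf e u v w' p' M' b'| ≤ 1 / 10 ^ 3 * (d / 2) * E := by
  have hD : 0 ≤ d * E := by positivity
  set D : ℝ := d * E with hDdef
  have he2 : |e| ≤ 1 / 10 ^ 11 := by rw [abs_of_pos he]; linarith
  have heta0 : 0 < eta := by linarith
  have hM2 : |M| ≤ 20 := by linarith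
  have hM2' : |M'| ≤ 20 := by linarith
  obtain ⟨-, hi⟩ := algx_inv he2 hM2
  obtain ⟨-, hi'⟩ := algx_inv he2 hM2'
  have hb1 : |b| ≤ 2 / 10 ^ 10 := hb.trans (by nlinarith)
  have hb1' : |b'| ≤ 2 / 10 ^ 10 := hb'.trans (by nlinarith)
  have hw2 : |w| ≤ 11 / 10 ^ 5 := by linarith
  have hw2' : |w'| ≤ 11 / 10 ^ 5 := by linarith
  have hU2 : |u + w| ≤ 4 := algx_w (algx_add hu hw) (by linarith)
  have hU2' : |u + w'| ≤ 4 := algx_w (algx_add hu hw') (by linarith)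
  have hvp : |v + p| ≤ 7 := algx_w (algx_add hv hp) (by linarith)
  have hvp' : |v + p'| ≤ 7 := algx_w (algx_add hv hp') (by linarith)
  have dw1 : |w - w'| ≤ (11 / 100) * D := by rw [hDdef]; linarith
  have dM1 : |M - M'| ≤ 2 * D := by rw [hDdef]; linarith
  have db1 : |b - b'| ≤ (2 / 10 ^ 11) * D := by
    refine db.trans ?_
    have : 2 * eta * d * E = 2 * eta * D := by rw [hDdef]; ring
    rw [this]
    nlinarith
  have dvp : |(v + p) - (v + p')| ≤ (11 / 100) * D := by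
    have : (v + p) - (v + p') = p - p' := by ring
    rw [this, hDdef]; linarith
  have dU : |(u + w) - (u + w')| ≤ (11 / 100) * D := by
    have : (u + w) - (u + w') = w - w' := by ring
    rw [this]; exact dw1
  have di := algx_linv he2 hM2 hM2' dM1
  have t1 := algx_lmul hw2 hw2' dw1 dw1
  have t2 := algx_lmul (algx_mul hb1 hvp) hi' (algx_lmul hb1 hvp' db1 dvp) di
  have de : |e - e| ≤ 0 * D := by simp
  have d1 : |(1 : ℝ) - 1| ≤ 0 * D := by simp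
  have tx : |M - (u + w) - e * M * (u + w)| ≤ 25 :=
    algx_w (algx_sub (algx_sub hM2 hU2) (algx_mul (algx_mul he2 hM2) hU2)) (by norm_num)
  have tx' : |M' - (u + w') - e * M' * (u + w')| ≤ 25 :=
    algx_w (algx_sub (algx_sub hM2' hU2') (algx_mul (algx_mul he2 hM2') hU2')) (by norm_num)
  have ty : |u + w - 1| ≤ 5 :=
    algx_w (algx_sub hU2 (show |(1 : ℝ)| ≤ 1 by norm_num)) (by norm_num)
  have ty' : |u + w' - 1| ≤ 5 :=
    algx_w (algx_sub hU2' (show |(1 : ℝ)| ≤ 1 by norm_num)) (by norm_num)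
  have dx : |(M - (u + w) - e * M * (u + w)) - (M' - (u + w') - e * M' * (u + w'))| ≤ 3 * D := by
    have h := algx_lsub (algx_lsub dM1 dU)
      (algx_lmul (algx_mul he2 hM2) hU2' (algx_lmul he2 hM2' de dM1) dU)
    refine h.trans ?_
    apply mul_le_mul_of_nonneg_right _ hD
    norm_num
  have dy : |(u + w - 1) - (u + w' - 1)| ≤ (11 / 100) * D := by
    have : (u + w - 1) - (u + w' - 1) = w - w' := by ring
    rw [this]; exact dw1
  have t3 := algx_lmul (algx_mul (algx_mul he2 tx) hU2) ty'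
    (algx_lmul (algx_mul he2 tx) hU2' (algx_lmul he2 tx' de dx) dU) dy
  have e0 : ∀ w p M b : ℝ, Qf e u v w p M b = (-4) * (w * w) + 2 * (b * (v + p) * (1 - e * M)⁻¹) -
      4 * (e * (M - (u + w) - e * M * (u + w)) * (u + w) * (u + w - 1)) := by
    intro w p M b
    unfold Qf
    rw [div_eq_mul_inv]
    ring
  have n4 : |(-4 : ℝ)| ≤ 4 := by norm_num
  have n2 : |(2 : ℝ)| ≤ 2 := by norm_num
  have n4' : |(4 : ℝ)| ≤ 4 := by norm_num
  have e1 : Qf e u v w p M b - Qf e u v w' p' M' b' =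
      (-4) * (w * w - w' * w') +
      2 * (b * (v + p) * (1 - e * M)⁻¹ - b' * (v + p') * (1 - e * M')⁻¹) -
      4 * (e * (M - (u + w) - e * M * (u + w)) * (u + w) * (u + w - 1) -
        e * (M' - (u + w') - e * M' * (u + w')) * (u + w') * (u + w' - 1)) := by
    rw [e0, e0]; ring
  rw [e1]
  refine algx_w (algx_sub (algx_add (algx_mul n4 t1) (algx_mul n2 t2)) (algx_mul n4' t3)) ?_
  have e2 : 1 / 10 ^ 3 * (d / 2) * E = (1 / 2000) * D := by rw [hDdef]; ring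
  rw [e2]
  ring_nf
  linarith

theorem alg_F_lip {E e eta s u w M w' M' d : ℝ} (hE : 0 < E) (hE1 : E ≤ 1)
    (he : 0 < e) (he1 : e ≤ eta) (heta : eta ≤ 1 / 10 ^ 11)
    (hs : 1 / 2 ≤ s) (hs1 : s ≤ 51 / 100) (hu : |u| ≤ 3 * E)
    (hw : |w| ≤ 11 / 10 ^ 5 * E) (hM : |M| ≤ 20 * E)
    (hw' : |w'| ≤ 11 / 10 ^ 5 * E) (hM' : |M'| ≤ 20 * E) (hd : 0 ≤ d)
    (dw : |w - w'| ≤ 11 / 100 * d * E) (dM : |M - M'| ≤ 2 * d * E) :
    |Ff e s (u + w) M - Ff e s (u + w') M'| ≤ d / 2 * E := by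
  have hD : 0 ≤ d * E := by positivity
  set D : ℝ := d * E with hDdef
  have he2 : |e| ≤ 1 / 10 ^ 11 := by rw [abs_of_pos he]; linarith
  have hs2 : |s| ≤ 51 / 100 := by rw [abs_of_pos (by linarith)]; exact hs1
  have hM2 : |M| ≤ 20 := by linarith
  have hM2' : |M'| ≤ 20 := by linarith
  have hU2 : |u + w| ≤ 301 / 100 := algx_w (algx_add hu hw) (by linarith)
  have hU2' : |u + w'| ≤ 301 / 100 := algx_w (algx_add hu hw') (by linarith)
  have dM1 : |M - M'| ≤ 2 * D := by rw [hDdef]; linarith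
  have dU : |(u + w) - (u + w')| ≤ (11 / 100) * D := by
    have : (u + w) - (u + w') = w - w' := by ring
    rw [this, hDdef]; linarith
  have de : |e - e| ≤ 0 * D := by simp
  have dee : |e * e - e * e| ≤ 0 * D := by simp
  have ds : |s - s| ≤ 0 * D := by simp
  have d1 : |(1 : ℝ) - 1| ≤ 0 * D := by simp
  have d2 : |(2 : ℝ) - 2| ≤ 0 * D := by simp
  have dMM := algx_lmul hM2 hM2' dM1 dM1
  have t1 := algx_lmul he2 (algx_mul hM2' hM2') de dMM
  have t2 : |1 - e * e * (M * M)| ≤ 101 / 100 :=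
    algx_w (algx_sub (show |(1 : ℝ)| ≤ 1 by norm_num)
      (algx_mul (algx_mul he2 he2) (algx_mul hM2 hM2))) (by norm_num)
  have t3' : |2 - e * (u + w')| ≤ 201 / 100 :=
    algx_w (algx_sub (show |(2 : ℝ)| ≤ 2 by norm_num) (algx_mul he2 hU2')) (by norm_num)
  have dt2 := algx_lsub d1 (algx_lmul (algx_mul he2 he2) (algx_mul hM2' hM2') dee dMM)
  have dt3 := algx_lsub d2 (algx_lmul he2 hU2' de dU)
  have t4 := algx_lmul (algx_mul (algx_mul t2 hs2) hU2) t3'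
    (algx_lmul (algx_mul t2 hs2) hU2' (algx_lmul t2 hs2 dt2 ds) dU) dt3
  have e0 : ∀ U M : ℝ, Ff e s U M = e * (M * M) + (1 - e * e * (M * M)) * s * U *
      (2 - e * U) := by
    intro U M
    unfold Ff
    ring
  rw [e0, e0]
  refine (algx_ladd t1 t4).trans ?_
  have e2 : d / 2 * E = (1 / 2) * D := by rw [hDdef]; ring
  rw [e2]
  apply mul_le_mul_of_nonneg_right _ hD
  norm_num

end Pool.Agent.R206.GD
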