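import Pool.Agent.R206.GD.Defs

/-!
Project GD (MP_b6986b_an), piece BD: parity and bounds of the explicit functions.
-/

namespace Pool.Agent.R206.GD

open Real MeasureTheory Set Filter

theorem f1_neg (z : ℝ) : f1 (-z) = - f1 z := by
  unfold f1; rw [sinh_neg, cosh_neg]; ring
theorem d1_neg (z : ℝ) : d1 (-z) = d1 z := by
  unfold d1; rw [sinh_neg, cosh_neg]; ring
theorem f2_neg (z : ℝ) : f2 (-z) = f2 z := by
  unfold f2; rw [sinh_neg, cosh_neg]; ring
theorem d2_neg (z : ℝ) : d2 (-z) = - d2 z := by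
  unfold d2; rw [sinh_neg, cosh_neg]; ring
theorem u0_neg (z : ℝ) : u0 (-z) = u0 z := by
  unfold u0; rw [cosh_neg]
theorem v0_neg (z : ℝ) : v0 (-z) = - v0 z := by
  unfold v0; rw [sinh_neg, cosh_neg]; ring

theorem bd_cosh_le (z : ℝ) : cosh z ≤ exp |z| := by
  rw [← cosh_abs, cosh_eq]
  have h : exp (-|z|) ≤ exp |z| := exp_le_exp.2 (by linarith [abs_nonneg z])
  linarith

theorem bd_inv (z : ℝ) : 1 / cosh z ≤ 2 * exp (-|z|) := by
  have hc := cosh_pos z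
  rw [div_le_iff₀ hc]
  have h1 : exp |z| / 2 ≤ cosh z := by
    rw [← cosh_abs, cosh_eq]
    have := exp_pos (-|z|)
    linarith
  have h2 : exp (-|z|) * exp |z| = 1 := by rw [← exp_add]; simp
  have h3 := exp_pos (-|z|)
  nlinarith

theorem bd_inv2 (z : ℝ) : 1 / cosh z ^ 2 ≤ 4 * exp (-2 * |z|) := by
  have hc := cosh_pos z
  have h := bd_inv z
  have h0 : 0 ≤ 1 / cosh z := by positivity
  calc 1 / cosh z ^ 2 = (1 / cosh z) ^ 2 := by rw [one_div_pow]
    _ ≤ (2 * exp (-|z|)) ^ 2 := by gcongr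
    _ = 4 * exp (-2 * |z|) := by
        rw [mul_pow, ← exp_nat_mul]
        norm_num

theorem bd_sinh (z : ℝ) : |sinh z| ≤ cosh z := by
  rw [abs_le]
  constructor
  · have := exp_pos z
    rw [cosh_eq, sinh_eq]
    linarith
  · have := exp_pos (-z)
    rw [cosh_eq, sinh_eq]
    linarith

theorem bd_self (z : ℝ) : |z| ≤ |sinh z| := by
  rw [abs_sinh]
  exact self_le_sinh_iff.2 (abs_nonneg z)

theorem f1_bd (z : ℝ) : |f1 z| ≤ 8 * exp (-2 * |z|) := by
  have hc := cosh_pos z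
  have h1 := bd_inv2 z
  have h2 := bd_sinh z
  have h3 := exp_pos (-2 * |z|)
  unfold f1
  rw [abs_div, abs_of_pos (by positivity : 0 < cosh z ^ 3)]
  calc |sinh z| / cosh z ^ 3 ≤ cosh z / cosh z ^ 3 := by gcongr
    _ = 1 / cosh z ^ 2 := by field_simp
    _ ≤ _ := by linarith

theorem bd_cs (z : ℝ) : |cosh z ^ 2 - 3 * sinh z ^ 2| ≤ 2 * cosh z ^ 2 := by
  have h := cosh_sq z
  have h2 := sq_nonneg (sinh z)
  rw [abs_le]
  constructor <;> nlinarith

theorem d1_bd (z : ℝ) : |d1 z| ≤ 8 * exp (-2 * |z|) := by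
  have hc := cosh_pos z
  have h1 := bd_inv2 z
  unfold d1
  rw [abs_div, abs_of_pos (by positivity : 0 < cosh z ^ 4)]
  calc |cosh z ^ 2 - 3 * sinh z ^ 2| / cosh z ^ 4 ≤ 2 * cosh z ^ 2 / cosh z ^ 4 := by
        gcongr; exact bd_cs z
    _ = 2 * (1 / cosh z ^ 2) := by field_simp
    _ ≤ _ := by linarith

theorem bd_c2 (z : ℝ) : cosh z ^ 2 ≤ exp (2 * |z|) := by
  have hc := cosh_pos z
  calc cosh z ^ 2 ≤ (exp |z|) ^ 2 := by gcongr; exact bd_cosh_le z
    _ = exp (2 * |z|) := by rw [← exp_nat_mul]; norm_num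

theorem f2_bd (z : ℝ) : |f2 z| ≤ 10 * exp (2 * |z|) := by
  have hc := cosh_pos z
  have hc1 := one_le_cosh z
  have h2 := bd_c2 z
  have hs := bd_sinh z
  have hz := (bd_self z).trans hs
  have hs0 := abs_nonneg (sinh z)
  have hs2 : sinh z ^ 2 ≤ cosh z ^ 2 := by rw [← sq_abs]; gcongr
  have a1 : |(-1 : ℝ) / cosh z ^ 2| ≤ 1 := by
    rw [abs_div, abs_neg, abs_one, abs_of_pos (by positivity : 0 < cosh z ^ 2), div_le_one (by positivity)]
    exact one_le_pow₀ hc1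
  have a2 : |15 / 8 * z * sinh z / cosh z ^ 3| ≤ 15 / 8 := by
    rw [abs_div, abs_mul, abs_mul, abs_of_pos (by positivity : 0 < cosh z ^ 3),
      abs_of_pos (by norm_num : (0:ℝ) < 15 / 8), div_le_iff₀ (by positivity)]
    have e1 : |z| * |sinh z| ≤ cosh z * cosh z := by gcongr
    have e2 : cosh z * cosh z ≤ cosh z ^ 3 := by
      calc cosh z * cosh z = cosh z ^ 2 * 1 := by ring
        _ ≤ cosh z ^ 2 * cosh z := by gcongr
        _ = cosh z ^ 3 := by ring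
    nlinarith
  have a3 : |9 / 8 * sinh z ^ 2 / cosh z ^ 2| ≤ 9 / 8 := by
    rw [abs_of_nonneg (by positivity), div_le_iff₀ (by positivity)]
    linarith
  have a4 : |1 / 4 * sinh z ^ 4 / cosh z ^ 2| ≤ 1 / 4 * cosh z ^ 2 := by
    rw [abs_of_nonneg (by positivity), div_le_iff₀ (by positivity)]
    have : sinh z ^ 4 ≤ cosh z ^ 2 * cosh z ^ 2 := by
      calc sinh z ^ 4 = sinh z ^ 2 * sinh z ^ 2 := by ring
        _ ≤ _ := by gcongr
    nlinarith
  have hE : 1 ≤ cosh z ^ 2 := one_le_pow₀ hc1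
  unfold f2
  refine (abs_add_le _ _).trans ?_
  have b1 := abs_add_le (-1 / cosh z ^ 2 + 15 / 8 * z * sinh z / cosh z ^ 3)
    (9 / 8 * sinh z ^ 2 / cosh z ^ 2)
  have b2 := abs_add_le (-1 / cosh z ^ 2) (15 / 8 * z * sinh z / cosh z ^ 3)
  linarith

theorem d2_bd (z : ℝ) : |d2 z| ≤ 10 * exp (2 * |z|) := by
  have hc := cosh_pos z
  have hc1 := one_le_cosh z
  have h2 := bd_c2 z
  have hs := bd_sinh z
  have hz := bd_self z
  have hs0 := abs_nonneg (sinh z)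
  have hz0 := abs_nonneg z
  have hs2 : sinh z ^ 2 ≤ cosh z ^ 2 := by rw [← sq_abs]; gcongr
  have hsc : 2 * |sinh z| ≤ cosh z ^ 2 := by
    rw [cosh_sq, ← sq_abs (sinh z)]
    nlinarith [sq_nonneg (|sinh z| - 1)]
  have hE : 1 ≤ cosh z ^ 2 := one_le_pow₀ hc1
  have a1 : |49 / 8 * sinh z / cosh z ^ 3| ≤ 49 / 16 := by
    rw [abs_div, abs_mul, abs_of_pos (by positivity : 0 < cosh z ^ 3),
      abs_of_pos (by norm_num : (0:ℝ) < 49 / 8), div_le_iff₀ (by positivity)]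
    have e2 : cosh z ^ 2 ≤ cosh z ^ 3 := pow_le_pow_right₀ hc1 (by norm_num)
    linarith
  have a2 : |15 / 8 * z * (cosh z ^ 2 - 3 * sinh z ^ 2) / cosh z ^ 4| ≤ 15 / 8 := by
    rw [abs_div, abs_mul, abs_mul, abs_of_pos (by positivity : 0 < cosh z ^ 4),
      abs_of_pos (by norm_num : (0:ℝ) < 15 / 8), div_le_iff₀ (by positivity)]
    have e1 : |z| * |cosh z ^ 2 - 3 * sinh z ^ 2| ≤ |sinh z| * (2 * cosh z ^ 2) :=
      mul_le_mul hz (bd_cs z) (abs_nonneg _) hs0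
    have e3 : |sinh z| * (2 * cosh z ^ 2) ≤ cosh z ^ 4 := by
      calc |sinh z| * (2 * cosh z ^ 2) = (2 * |sinh z|) * cosh z ^ 2 := by ring
        _ ≤ cosh z ^ 2 * cosh z ^ 2 := by gcongr
        _ = cosh z ^ 4 := by ring
    nlinarith
  have a3 : |sinh z ^ 3 / cosh z - sinh z ^ 5 / (2 * cosh z ^ 3)| ≤ cosh z ^ 2 := by
    have e : sinh z ^ 3 / cosh z - sinh z ^ 5 / (2 * cosh z ^ 3) =
        sinh z ^ 3 / cosh z * (1 - sinh z ^ 2 / (2 * cosh z ^ 2)) := by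
      field_simp
    rw [e, abs_mul]
    have e1 : |sinh z ^ 3 / cosh z| ≤ cosh z ^ 2 := by
      rw [abs_div, abs_pow, abs_of_pos hc, div_le_iff₀ hc]
      calc |sinh z| ^ 3 ≤ cosh z ^ 3 := by gcongr
        _ = cosh z ^ 2 * cosh z := by ring
    have e2 : |1 - sinh z ^ 2 / (2 * cosh z ^ 2)| ≤ 1 := by
      have e3 : 0 ≤ sinh z ^ 2 / (2 * cosh z ^ 2) := by positivity
      have e4 : sinh z ^ 2 / (2 * cosh z ^ 2) ≤ 1 := by
        rw [div_le_one (by positivity)]; linarith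
      rw [abs_le]
      constructor <;> linarith
    calc |sinh z ^ 3 / cosh z| * |1 - sinh z ^ 2 / (2 * cosh z ^ 2)| ≤ cosh z ^ 2 * 1 :=
          mul_le_mul e1 e2 (abs_nonneg _) (by positivity)
      _ = cosh z ^ 2 := mul_one _
  unfold d2
  have e5 : 49 / 8 * sinh z / cosh z ^ 3 + 15 / 8 * z * (cosh z ^ 2 - 3 * sinh z ^ 2) / cosh z ^ 4
      + sinh z ^ 3 / cosh z - sinh z ^ 5 / (2 * cosh z ^ 3) =
      (49 / 8 * sinh z / cosh z ^ 3 + 15 / 8 * z * (cosh z ^ 2 - 3 * sinh z ^ 2) / cosh z ^ 4)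
      + (sinh z ^ 3 / cosh z - sinh z ^ 5 / (2 * cosh z ^ 3)) := by ring
  rw [e5]
  refine (abs_add_le _ _).trans ?_
  have b1 := abs_add_le (49 / 8 * sinh z / cosh z ^ 3)
    (15 / 8 * z * (cosh z ^ 2 - 3 * sinh z ^ 2) / cosh z ^ 4)
  linarith

theorem u0_bd (z : ℝ) : |u0 z| ≤ 3 * exp (-|z|) := by
  have hc := cosh_pos z
  have hc1 := one_le_cosh z
  have h1 := bd_inv z
  unfold u0
  rw [abs_of_pos (by positivity)]
  calc 3 / 2 / cosh z ^ 2 ≤ 3 / 2 / cosh z ^ 1 := by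
        apply div_le_div_of_nonneg_left (by norm_num) (by positivity)
        exact pow_le_pow_right₀ hc1 (by norm_num)
    _ = 3 / 2 * (1 / cosh z) := by ring
    _ ≤ _ := by linarith

theorem v0_bd (z : ℝ) : |v0 z| ≤ 6 * exp (-|z|) := by
  have hc := cosh_pos z
  have hc1 := one_le_cosh z
  have h1 := bd_inv z
  have hs := bd_sinh z
  unfold v0
  rw [abs_div, abs_mul, abs_of_pos (by positivity : 0 < cosh z ^ 3), abs_neg,
    abs_of_pos (by norm_num : (0:ℝ) < 3)]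
  calc 3 * |sinh z| / cosh z ^ 3 ≤ 3 * cosh z / cosh z ^ 3 := by gcongr
    _ = 3 / cosh z ^ 2 := by field_simp
    _ ≤ 3 / cosh z ^ 1 := by
        apply div_le_div_of_nonneg_left (by norm_num) (by positivity)
        exact pow_le_pow_right₀ hc1 (by norm_num)
    _ = 3 * (1 / cosh z) := by ring
    _ ≤ _ := by linarith

end Pool.Agent.R206.GD
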