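import Pool.Agent.R206.GD.Defs

set_option autoImplicit false

namespace Pool.Agent.R206.GD

open Real MeasureTheory Set Filter Topology

lemma fix_limit (R C : ℝ) (hC : 0 ≤ C) (q : ℕ → ℝ → ℝ) (hA : ∀ n, Adm R (q n))
    (hd : ∀ n z, |q (n + 1) z - q n z| ≤ C / 2 ^ n * exp (-|z|)) :
    ∃ Q : ℝ → ℝ, Adm R Q ∧ (∀ z, Tendsto (fun n => q n z) atTop (𝓝 (Q z))) ∧
      ∀ n z, |Q z - q n z| ≤ 2 * C / 2 ^ n * exp (-|z|) := by
  have hd' : ∀ z n, dist (q n z) (q (n + 1) z) ≤ (2 * C * exp (-|z|)) / 2 / 2 ^ n := by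
    intro z n
    rw [dist_comm, Real.dist_eq]
    refine (hd n z).trans (le_of_eq ?_)
    field_simp
  have hc : ∀ z, ∃ l, Tendsto (fun n => q n z) atTop (𝓝 l) := fun z =>
    cauchySeq_tendsto_of_complete (cauchySeq_of_le_geometric_two (hd' z))
  choose Q hQ using hc
  have hb : ∀ n z, |Q z - q n z| ≤ 2 * C / 2 ^ n * exp (-|z|) := by
    intro n z
    have := dist_le_of_le_geometric_two_of_tendsto (hd' z) (hQ z) n
    rw [dist_comm, Real.dist_eq] at this
    refine this.trans (le_of_eq ?_)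
    ring
  refine ⟨Q, ⟨?_, ?_, ?_⟩, hQ, hb⟩
  · have hu : TendstoUniformly q Q atTop := by
      rw [Metric.tendstoUniformly_iff]
      intro ε hε
      have h1 : Tendsto (fun n : ℕ => 2 * C / 2 ^ n) atTop (𝓝 0) := by
        have h2 := tendsto_pow_atTop_nhds_zero_of_lt_one (r := (1 / 2 : ℝ)) (by norm_num)
          (by norm_num)
        have h3 := h2.const_mul (2 * C)
        rw [mul_zero] at h3
        refine h3.congr (fun n => ?_)
        rw [one_div, inv_pow]; rfl
      filter_upwards [h1.eventually_lt_const hε] with n hn z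
      rw [Real.dist_eq]
      refine lt_of_le_of_lt (hb n z) (lt_of_le_of_lt ?_ hn)
      have h4 : exp (-|z|) ≤ 1 := by
        rw [Real.exp_le_one_iff]
        linarith [abs_nonneg z]
      have h5 : 0 ≤ 2 * C / 2 ^ n := by positivity
      nlinarith
    exact hu.continuous (Frequently.of_forall (fun n => (hA n).1))
  · intro z
    refine tendsto_nhds_unique (hQ (-z)) ?_
    refine (hQ z).congr (fun n => ?_)
    exact ((hA n).2.1 z).symm
  · intro z
    exact le_of_tendsto ((hQ z).abs) (Eventually.of_forall (fun n => (hA n).2.2 z))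

theorem fix (R1 R2 lam : ℝ) (hR1 : 0 ≤ R1) (hR2 : 0 ≤ R2) (hlam : 0 < lam)
    (Φ Ψ : (ℝ → ℝ) → (ℝ → ℝ) → ℝ → ℝ)
    (h1 : ∀ q g : ℝ → ℝ, Adm R1 q → Adm R2 g → Adm R1 (Φ q g) ∧ Adm R2 (Ψ q g))
    (h2 : ∀ (q g q' g' : ℝ → ℝ) (d : ℝ), Adm R1 q → Adm R2 g → Adm R1 q' → Adm R2 g' → 0 ≤ d →
      (∀ z, |q z - q' z| ≤ lam * d * exp (-|z|)) → (∀ z, |g z - g' z| ≤ d * exp (-|z|)) →
      (∀ z, |Φ q g z - Φ q' g' z| ≤ lam * (d / 2) * exp (-|z|)) ∧
      (∀ z, |Ψ q g z - Ψ q' g' z| ≤ d / 2 * exp (-|z|))) :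
    ∃ q g : ℝ → ℝ, Adm R1 q ∧ Adm R2 g ∧ (∀ z, Φ q g z = q z) ∧ (∀ z, Ψ q g z = g z) := by
  have hadm0 : ∀ R : ℝ, 0 ≤ R → Adm R (fun _ => 0) := by
    intro R hR
    refine ⟨continuous_const, fun _ => rfl, fun z => ?_⟩
    rw [abs_zero]; positivity
  let s : ℕ → (ℝ → ℝ) × (ℝ → ℝ) := fun n =>
    Nat.rec (fun _ => 0, fun _ => 0) (fun _ p => (Φ p.1 p.2, Ψ p.1 p.2)) n
  have s0 : s 0 = (fun _ => 0, fun _ => 0) := rfl
  have ss : ∀ n, s (n + 1) = (Φ (s n).1 (s n).2, Ψ (s n).1 (s n).2) := fun _ => rfl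
  have hA : ∀ n, Adm R1 (s n).1 ∧ Adm R2 (s n).2 := by
    intro n
    induction n with
    | zero => exact ⟨hadm0 R1 hR1, hadm0 R2 hR2⟩
    | succ n ih => rw [ss]; exact h1 _ _ ih.1 ih.2
  set D := R1 / lam + R2 with hD
  have hD0 : 0 ≤ D := by positivity
  have hstep : ∀ n, (∀ z, |(s (n + 1)).1 z - (s n).1 z| ≤ lam * (D / 2 ^ n) * exp (-|z|)) ∧
      (∀ z, |(s (n + 1)).2 z - (s n).2 z| ≤ D / 2 ^ n * exp (-|z|)) := by
    intro n
    induction n with
    | zero =>
      constructor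
      · intro z
        rw [s0]
        simp only [sub_zero, pow_zero, div_one]
        refine ((hA 1).1.2.2 z).trans ?_
        refine mul_le_mul_of_nonneg_right ?_ (exp_pos _).le
        rw [hD]
        have : lam * (R1 / lam + R2) = R1 + lam * R2 := by field_simp
        rw [this]
        have : 0 ≤ lam * R2 := by positivity
        linarith
      · intro z
        rw [s0]
        simp only [sub_zero, pow_zero, div_one]
        refine ((hA 1).2.2.2 z).trans ?_
        refine mul_le_mul_of_nonneg_right ?_ (exp_pos _).le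
        rw [hD]
        have : 0 ≤ R1 / lam := by positivity
        linarith
    | succ n ih =>
      have h3 := h2 _ _ _ _ (D / 2 ^ n) (hA (n + 1)).1 (hA (n + 1)).2 (hA n).1 (hA n).2
        (by positivity) ih.1 ih.2
      have e : D / 2 ^ n / 2 = D / 2 ^ (n + 1) := by rw [div_div, ← pow_succ]
      rw [e] at h3
      rw [ss (n + 1)]
      have e1 : (s (n + 1)).1 = Φ (s n).1 (s n).2 := by rw [ss]
      have e2 : (s (n + 1)).2 = Ψ (s n).1 (s n).2 := by rw [ss]
      constructor
      · intro z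
        have := h3.1 z
        rw [← e1] at this
        exact this
      · intro z
        have := h3.2 z
        rw [← e2] at this
        exact this
  obtain ⟨q, hq1, hq2, hq3⟩ := fix_limit R1 (lam * D) (by positivity) (fun n => (s n).1)
    (fun n => (hA n).1) (fun n z => by
      refine ((hstep n).1 z).trans (le_of_eq ?_)
      rw [mul_div_assoc])
  obtain ⟨g, hg1, hg2, hg3⟩ := fix_limit R2 D hD0 (fun n => (s n).2)
    (fun n => (hA n).2) (fun n z => (hstep n).2 z)
  refine ⟨q, g, hq1, hg1, ?_, ?_⟩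
  · intro z
    refine (tendsto_nhds_unique ?_ ((tendsto_add_atTop_iff_nat 1).2 (hq2 z)))
    rw [tendsto_iff_norm_sub_tendsto_zero]
    refine squeeze_zero (fun n => norm_nonneg _) (g := fun n : ℕ => lam * (2 * D / 2 ^ n / 2)
      * exp (-|z|)) ?_ ?_
    · intro n
      have h3 := (h2 q g (s n).1 (s n).2 (2 * D / 2 ^ n) hq1 hg1 (hA n).1 (hA n).2 (by positivity)
        (fun z => by
          refine (hq3 n z).trans (le_of_eq ?_)
          ring) (fun z => hg3 n z)).1 z
      rw [Real.norm_eq_abs, abs_sub_comm]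
      exact h3
    · have h4 := tendsto_pow_atTop_nhds_zero_of_lt_one (r := (1 / 2 : ℝ)) (by norm_num)
          (by norm_num)
      have h5 := h4.const_mul (lam * D * exp (-|z|))
      rw [mul_zero] at h5
      refine h5.congr (fun n => ?_)
      rw [one_div, inv_pow]
      field_simp
  · intro z
    refine (tendsto_nhds_unique ?_ ((tendsto_add_atTop_iff_nat 1).2 (hg2 z)))
    rw [tendsto_iff_norm_sub_tendsto_zero]
    refine squeeze_zero (fun n => norm_nonneg _) (g := fun n : ℕ => (2 * D / 2 ^ n / 2)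
      * exp (-|z|)) ?_ ?_
    · intro n
      have h3 := (h2 q g (s n).1 (s n).2 (2 * D / 2 ^ n) hq1 hg1 (hA n).1 (hA n).2 (by positivity)
        (fun z => by
          refine (hq3 n z).trans (le_of_eq ?_)
          ring) (fun z => hg3 n z)).2 z
      rw [Real.norm_eq_abs, abs_sub_comm]
      exact h3
    · have h4 := tendsto_pow_atTop_nhds_zero_of_lt_one (r := (1 / 2 : ℝ)) (by norm_num)
          (by norm_num)
      have h5 := h4.const_mul (D * exp (-|z|))
      rw [mul_zero] at h5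
      refine h5.congr (fun n => ?_)
      rw [one_div, inv_pow]
      field_simp

end Pool.Agent.R206.GD
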