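import Pool.Agent.R206.GD.Defs

/-!
Project GD (MP_b6986b_an), piece KER: the Green operator of `M - a^2 M'' = g` on the line.
-/

namespace Pool.Agent.R206.GD

open Real MeasureTheory Set Filter

lemma adm_nonneg {G : ℝ} {g : ℝ → ℝ} (hg : Adm G g) : 0 ≤ G := by
  have := (abs_nonneg _).trans (hg.2.2 0)
  simpa using this

lemma ker_bound {a G : ℝ} {g : ℝ → ℝ} (hg : Adm G g) {t z : ℝ} (h : t ≤ z) :
    |exp (t / a) * g t| ≤ (G * exp (-|z|) * exp z) * exp ((1 / a - 1) * t) := by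
  have hG := adm_nonneg hg
  rw [abs_mul, abs_of_pos (exp_pos _)]
  have h1 : exp (-|t|) ≤ exp (-|z|) * exp (z - t) := by
    rw [← exp_add, exp_le_exp]
    have : |z| ≤ |t| + |z - t| := by
      have := abs_add_le t (z - t)
      simpa using this
    rw [abs_of_nonneg (by linarith : 0 ≤ z - t)] at this
    linarith
  calc exp (t / a) * |g t| ≤ exp (t / a) * (G * (exp (-|z|) * exp (z - t))) := by
        apply mul_le_mul_of_nonneg_left _ (exp_pos _).le
        exact (hg.2.2 t).trans (mul_le_mul_of_nonneg_left h1 hG)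
    _ = (G * exp (-|z|) * exp z) * exp ((1 / a - 1) * t) := by
        have : exp z * exp ((1 / a - 1) * t) = exp (t / a) * exp (z - t) := by
          rw [← exp_add, ← exp_add]; congr 1; ring
        calc _ = G * exp (-|z|) * (exp (t / a) * exp (z - t)) := by ring
          _ = _ := by rw [← this]; ring

lemma ker_int {a G : ℝ} (ha : 0 < a) {g : ℝ → ℝ} (hg : Adm G g) (z : ℝ) :
    IntegrableOn (fun t => exp (t / a) * g t) (Iic z) := by
  have hG := adm_nonneg hg
  have h1 : IntegrableOn (fun t => G * exp ((1 / a) * t)) (Iic z) :=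
    (integrableOn_exp_mul_Iic (by positivity) z).const_mul G
  refine Integrable.mono' h1 ?_ ?_
  · have : Continuous g := hg.1
    exact (by fun_prop : Continuous fun t => exp (t / a) * g t).aestronglyMeasurable
  · refine Eventually.of_forall fun t => ?_
    rw [norm_eq_abs, abs_mul, abs_of_pos (exp_pos _)]
    have h2 : |g t| ≤ G := by
      refine (hg.2.2 t).trans ?_
      have : exp (-|t|) ≤ 1 := exp_le_one_iff.2 (by simp)
      nlinarith
    calc exp (t / a) * |g t| ≤ exp (t / a) * G := mul_le_mul_of_nonneg_left h2 (exp_pos _).le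
      _ = G * exp ((1 / a) * t) := by rw [mul_comm]; congr 2; ring

lemma Kb_eq {a G : ℝ} {g : ℝ → ℝ} (hg : Adm G g) (z : ℝ) : Kb a g z = Ka a g (-z) := by
  have h := integral_comp_neg_Iic (-z) (fun t => exp (-t / a) * g t)
  rw [neg_neg] at h
  rw [Kb, Ka, ← h]
  apply integral_congr_ae
  refine Eventually.of_forall fun t => ?_
  simp only [neg_neg, hg.2.1 t]

lemma Ka_deriv {a G : ℝ} (ha : 0 < a) {g : ℝ → ℝ} (hg : Adm G g) (z : ℝ) :
    HasDerivAt (Ka a g) (exp (z / a) * g z) z := by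
  have hgc : Continuous g := hg.1
  have hc : Continuous fun t => exp (t / a) * g t := by fun_prop
  have h1 : HasDerivAt (fun x => ∫ t in (0:ℝ)..x, exp (t / a) * g t) (exp (z / a) * g z) z :=
    intervalIntegral.integral_hasDerivAt_right (hc.intervalIntegrable _ _)
      hc.aestronglyMeasurable.stronglyMeasurableAtFilter hc.continuousAt
  have h2 : Ka a g = fun x => (∫ t in (0:ℝ)..x, exp (t / a) * g t) + Ka a g 0 := by
    funext x
    have := intervalIntegral.integral_Iic_sub_Iic (ker_int ha hg 0) (ker_int ha hg x)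
    rw [← this, Ka, Ka]
    ring
  rw [h2]
  exact h1.add_const _

lemma Kb_deriv {a G : ℝ} (ha : 0 < a) {g : ℝ → ℝ} (hg : Adm G g) (z : ℝ) :
    HasDerivAt (Kb a g) (-(exp (-z / a) * g z)) z := by
  have h1 : Kb a g = fun x => Ka a g (-x) := by
    funext x
    exact Kb_eq hg x
  rw [h1]
  have h2 := (Ka_deriv ha hg (-z)).comp z (hasDerivAt_neg z)
  rw [hg.2.1 z] at h2
  have h3 : (exp (-z / a) * g z) * (-1) = -(exp (-z / a) * g z) := by ring
  rw [← h3]
  exact h2

lemma ep_deriv (a z : ℝ) : HasDerivAt (fun x => exp (x / a)) (exp (z / a) / a) z := by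
  have h := ((hasDerivAt_id z).div_const a).exp
  have h2 : exp (z / a) / a = exp (id z / a) * (1 / a) := by simp; ring
  rw [h2]
  exact h

lemma en_deriv (a z : ℝ) : HasDerivAt (fun x => exp (-x / a)) (-exp (-z / a) / a) z := by
  have h := ((hasDerivAt_neg z).div_const a).exp
  have h2 : -exp (-z / a) / a = exp (-z / a) * (-1 / a) := by ring
  rw [h2]
  exact h

lemma ee (a z : ℝ) : exp (-z / a) * exp (z / a) = 1 := by
  rw [← exp_add]
  have : -z / a + z / a = 0 := by ring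
  rw [this, exp_zero]

theorem Mo_deriv {a G : ℝ} (ha : 0 < a) {g : ℝ → ℝ} (hg : Adm G g) (z : ℝ) :
    HasDerivAt (Mo a g) (Mo' a g z) z := by
  have h := (((en_deriv a z).mul (Ka_deriv ha hg z)).add
    ((ep_deriv a z).mul (Kb_deriv ha hg z))).div_const (2 * a)
  have h2 : Mo' a g z = (-exp (-z / a) / a * Ka a g z + exp (-z / a) * (exp (z / a) * g z) +
      (exp (z / a) / a * Kb a g z + exp (z / a) * (-(exp (-z / a) * g z)))) / (2 * a) := by
    rw [Mo']
    field_simp
    ring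
  rw [h2]
  exact h

theorem Mo'_deriv {a G : ℝ} (ha : 0 < a) {g : ℝ → ℝ} (hg : Adm G g) (z : ℝ) :
    HasDerivAt (Mo' a g) ((Mo a g z - g z) / a ^ 2) z := by
  have h := (((ep_deriv a z).mul (Kb_deriv ha hg z)).sub
    ((en_deriv a z).mul (Ka_deriv ha hg z))).div_const (2 * a ^ 2)
  have h2 : (Mo a g z - g z) / a ^ 2 =
      (exp (z / a) / a * Kb a g z + exp (z / a) * (-(exp (-z / a) * g z)) -
      (-exp (-z / a) / a * Ka a g z + exp (-z / a) * (exp (z / a) * g z))) / (2 * a ^ 2) := by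
    have h3 : exp (z / a) * (-(exp (-z / a) * g z)) = -g z := by
      have := ee a z
      linear_combination (-g z) * this
    have h4 : exp (-z / a) * (exp (z / a) * g z) = g z := by
      have := ee a z
      linear_combination (g z) * this
    rw [h3, h4, Mo]
    field_simp
    ring
  rw [h2]
  exact h

theorem Mo_neg {a G : ℝ} (ha : 0 < a) {g : ℝ → ℝ} (hg : Adm G g) (z : ℝ) :
    Mo a g (-z) = Mo a g z := by
  have h1 : exp (- -z / a) = exp (z / a) := by rw [neg_neg]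
  rw [Mo, Mo, Kb_eq hg, Kb_eq hg, h1, neg_neg]
  ring

theorem Mo'_neg {a G : ℝ} (ha : 0 < a) {g : ℝ → ℝ} (hg : Adm G g) (z : ℝ) :
    Mo' a g (-z) = - Mo' a g z := by
  have h1 : exp (- -z / a) = exp (z / a) := by rw [neg_neg]
  rw [Mo', Mo', Kb_eq hg, Kb_eq hg, h1, neg_neg]
  ring

lemma Ka_bd {a G : ℝ} (ha : 0 < a) (ha2 : a ≤ 1 / 2) {g : ℝ → ℝ} (hg : Adm G g) (z : ℝ) :
    |Ka a g z| ≤ 2 * a * G * exp (-|z|) * exp (z / a) := by
  have hG := adm_nonneg hg
  have hb : 0 < 1 / a - 1 := by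
    rw [sub_pos, lt_div_iff₀ ha]; linarith
  have h1 : |Ka a g z| ≤ ∫ t in Iic z, (G * exp (-|z|) * exp z) * exp ((1 / a - 1) * t) := by
    rw [Ka, ← norm_eq_abs]
    apply norm_integral_le_of_norm_le
    · exact (integrableOn_exp_mul_Iic hb z).const_mul _
    · refine (ae_restrict_iff' measurableSet_Iic).2 (Eventually.of_forall fun t ht => ?_)
      rw [norm_eq_abs]
      exact ker_bound hg ht
  rw [integral_const_mul, integral_exp_mul_Iic hb] at h1
  refine h1.trans ?_
  have h2 : G * exp (-|z|) * exp z * (exp ((1 / a - 1) * z) / (1 / a - 1)) =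
      (G * exp (-|z|) * exp (z / a)) * (1 / (1 / a - 1)) := by
    have : exp z * exp ((1 / a - 1) * z) = exp (z / a) := by
      rw [← exp_add]; congr 1; ring
    rw [← this]; ring
  rw [h2]
  have h3 : 1 / (1 / a - 1) ≤ 2 * a := by
    rw [div_le_iff₀ hb]
    have : 2 * a * (1 / a - 1) = 2 - 2 * a := by field_simp
    rw [this]; linarith
  calc (G * exp (-|z|) * exp (z / a)) * (1 / (1 / a - 1))
      ≤ (G * exp (-|z|) * exp (z / a)) * (2 * a) :=
        mul_le_mul_of_nonneg_left h3 (by positivity)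
    _ = _ := by ring

lemma ker_two {a G : ℝ} (ha : 0 < a) (ha2 : a ≤ 1 / 2) {g : ℝ → ℝ} (hg : Adm G g) (z : ℝ) :
    |exp (-z / a) * Ka a g z| ≤ 2 * a * G * exp (-|z|) ∧
    |exp (z / a) * Kb a g z| ≤ 2 * a * G * exp (-|z|) := by
  have key : ∀ y, |exp (-y / a) * Ka a g y| ≤ 2 * a * G * exp (-|y|) := by
    intro y
    rw [abs_mul, abs_of_pos (exp_pos _)]
    calc exp (-y / a) * |Ka a g y| ≤ exp (-y / a) * (2 * a * G * exp (-|y|) * exp (y / a)) :=
          mul_le_mul_of_nonneg_left (Ka_bd ha ha2 hg y) (exp_pos _).le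
      _ = 2 * a * G * exp (-|y|) * (exp (-y / a) * exp (y / a)) := by ring
      _ = _ := by rw [ee]; ring
  refine ⟨key z, ?_⟩
  have := key (-z)
  rw [abs_neg, neg_neg] at this
  rw [Kb_eq hg]
  exact this

theorem Mo_bd {a G : ℝ} (ha : 0 < a) (ha2 : a ≤ 1 / 2) {g : ℝ → ℝ} (hg : Adm G g) (z : ℝ) :
    |Mo a g z| ≤ 2 * G * exp (-|z|) := by
  obtain ⟨h1, h2⟩ := ker_two ha ha2 hg z
  rw [Mo, abs_div, abs_of_pos (by positivity : 0 < 2 * a), div_le_iff₀ (by positivity)]
  refine (abs_add_le _ _).trans ?_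
  linarith

theorem Mo'_bd {a G : ℝ} (ha : 0 < a) (ha2 : a ≤ 1 / 2) {g : ℝ → ℝ} (hg : Adm G g) (z : ℝ) :
    |Mo' a g z| ≤ 2 * G / a * exp (-|z|) := by
  obtain ⟨h1, h2⟩ := ker_two ha ha2 hg z
  rw [Mo', abs_div, abs_of_pos (by positivity : 0 < 2 * a ^ 2), div_le_iff₀ (by positivity)]
  refine (abs_sub _ _).trans ?_
  have h3 : 2 * G / a * exp (-|z|) * (2 * a ^ 2) = 4 * (a * G * exp (-|z|)) := by
    field_simp; ring
  rw [h3]
  linarith

lemma Ka_sub {a G : ℝ} (ha : 0 < a) {g h : ℝ → ℝ} (hg : Adm G g) (hh : Adm G h) (z : ℝ) :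
    Ka a (fun t => g t - h t) z = Ka a g z - Ka a h z := by
  rw [Ka, Ka, Ka, ← integral_sub (ker_int ha hg z) (ker_int ha hh z)]
  apply integral_congr_ae
  exact Eventually.of_forall fun t => by simp only [mul_sub]

lemma Kb_sub {a G : ℝ} (ha : 0 < a) {g h : ℝ → ℝ} (hg : Adm G g) (hh : Adm G h) (z : ℝ) :
    Kb a (fun t => g t - h t) z = Kb a g z - Kb a h z := by
  have hd : Adm (2 * G) (fun t => g t - h t) := by
    refine ⟨hg.1.sub hh.1, fun t => by
      change g (-t) - h (-t) = g t - h t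
      rw [hg.2.1, hh.2.1], fun t => ?_⟩
    refine (abs_sub _ _).trans ?_
    have := hg.2.2 t
    have := hh.2.2 t
    linarith
  rw [Kb_eq hd, Kb_eq hg, Kb_eq hh]
  exact Ka_sub ha hg hh _

theorem Mo_sub {a G : ℝ} (ha : 0 < a) {g h : ℝ → ℝ} (hg : Adm G g) (hh : Adm G h) (z : ℝ) :
    Mo a (fun t => g t - h t) z = Mo a g z - Mo a h z := by
  rw [Mo, Mo, Mo, Ka_sub ha hg hh, Kb_sub ha hg hh]
  ring

theorem Mo'_sub {a G : ℝ} (ha : 0 < a) {g h : ℝ → ℝ} (hg : Adm G g) (hh : Adm G h) (z : ℝ) :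
    Mo' a (fun t => g t - h t) z = Mo' a g z - Mo' a h z := by
  rw [Mo', Mo', Mo', Ka_sub ha hg hh, Kb_sub ha hg hh]
  ring

end Pool.Agent.R206.GD
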