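import Pool.Agent.R206.GD.Ode
import Pool.Agent.R206.GD.Bd

/-!
Project GD (MP_b6986b_an), piece LIN: the solution operator by variation of constants.
-/

namespace Pool.Agent.R206.GD

open Real MeasureTheory Set Filter Topology

theorem lin_f1_cont : Continuous f1 :=
  continuous_iff_continuousAt.2 fun z => (f1_deriv z).continuousAt
theorem lin_f2_cont : Continuous f2 :=
  continuous_iff_continuousAt.2 fun z => (f2_deriv z).continuousAt

theorem lin_G_nonneg {G : ℝ} {g : ℝ → ℝ} (hg : Adm G g) : 0 ≤ G := by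
  have h := hg.2.2 0
  simp at h
  exact (abs_nonneg _).trans h

theorem lin_F_bd {G : ℝ} {g : ℝ → ℝ} (hg : Adm G g) (t : ℝ) :
    |f1 t * g t| ≤ 8 * G * exp (-3 * |t|) := by
  rw [abs_mul]
  calc |f1 t| * |g t| ≤ (8 * exp (-2 * |t|)) * (G * exp (-|t|)) :=
        mul_le_mul (f1_bd t) (hg.2.2 t) (abs_nonneg _) (by positivity)
    _ = 8 * G * (exp (-2 * |t|) * exp (-|t|)) := by ring
    _ = 8 * G * exp (-3 * |t|) := by rw [← exp_add]; congr 2; ring

theorem lin_int1 {G : ℝ} {g : ℝ → ℝ} (hg : Adm G g) (z : ℝ) :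
    IntegrableOn (fun t => f1 t * g t) (Ioi z) := by
  have h := (integrableOn_exp_mul_Ioi (a := -3) (by norm_num) z).const_mul (8 * G)
  refine Integrable.mono' h (lin_f1_cont.mul hg.1).aestronglyMeasurable ?_
  filter_upwards with t
  rw [Real.norm_eq_abs]
  refine (lin_F_bd hg t).trans ?_
  have hG := lin_G_nonneg hg
  have : exp (-3 * |t|) ≤ exp (-3 * t) := exp_le_exp.2 (by have := le_abs_self t; linarith)
  gcongr

theorem lin_I1_eq {G : ℝ} {g : ℝ → ℝ} (hg : Adm G g) (z : ℝ) :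
    I1 g z = I1 g 0 - ∫ t in (0:ℝ)..z, f1 t * g t := by
  unfold I1
  have h := intervalIntegral.integral_interval_add_Ioi (lin_int1 hg 0) (lin_int1 hg z)
  linarith

theorem lin_I1_deriv {G : ℝ} {g : ℝ → ℝ} (hg : Adm G g) (z : ℝ) :
    HasDerivAt (I1 g) (-(f1 z * g z)) z := by
  have hc : Continuous fun t => f1 t * g t := lin_f1_cont.mul hg.1
  have h1 : HasDerivAt (fun u => ∫ t in (0:ℝ)..u, f1 t * g t) (f1 z * g z) z :=
    intervalIntegral.integral_hasDerivAt_right (hc.intervalIntegrable _ _)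
      (hc.stronglyMeasurableAtFilter _ _) hc.continuousAt
  have h2 : I1 g = fun z => I1 g 0 - ∫ t in (0:ℝ)..z, f1 t * g t := funext fun z => lin_I1_eq hg z
  rw [h2]
  exact h1.const_sub _

theorem lin_J2_deriv {G : ℝ} {g : ℝ → ℝ} (hg : Adm G g) (z : ℝ) :
    HasDerivAt (J2 g) (f2 z * g z) z := by
  have hc : Continuous fun t => f2 t * g t := lin_f2_cont.mul hg.1
  exact intervalIntegral.integral_hasDerivAt_right (hc.intervalIntegrable _ _)
      (hc.stronglyMeasurableAtFilter _ _) hc.continuousAt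

theorem W_deriv {G : ℝ} {g : ℝ → ℝ} (hg : Adm G g) (z : ℝ) :
    HasDerivAt (W g) (W' g z) z := by
  have h := ((f2_deriv z).fun_neg.mul (lin_I1_deriv hg z)).sub ((f1_deriv z).mul (lin_J2_deriv hg z))
  refine h.congr_deriv ?_
  unfold W'
  ring

theorem W'_deriv {G : ℝ} {g : ℝ → ℝ} (hg : Adm G g) (z : ℝ) :
    HasDerivAt (W' g) (g z - (12 / cosh z ^ 2 - 4) * W g z) z := by
  have h := ((d2_deriv z).fun_neg.mul (lin_I1_deriv hg z)).sub ((d1_deriv z).mul (lin_J2_deriv hg z))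
  refine h.congr_deriv ?_
  unfold W
  linear_combination (g z) * wronskian z

theorem lin_I1_neg {G : ℝ} {g : ℝ → ℝ} (hg : Adm G g) (z : ℝ) : I1 g (-z) = I1 g z := by
  rw [lin_I1_eq hg, lin_I1_eq hg z]
  have h := intervalIntegral.integral_comp_neg (a := 0) (b := z) (fun t => f1 t * g t)
  have h2 : (fun x => f1 (-x) * g (-x)) = fun x => -(f1 x * g x) := by
    funext x; rw [f1_neg, hg.2.1]; ring
  simp only [h2] at h
  have hs : ∫ t in (-z)..(0:ℝ), f1 t * g t = -∫ t in (0:ℝ)..(-z), f1 t * g t :=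
    intervalIntegral.integral_symm 0 (-z)
  rw [intervalIntegral.integral_neg, neg_zero, hs] at h
  linarith

theorem lin_J2_neg {G : ℝ} {g : ℝ → ℝ} (hg : Adm G g) (z : ℝ) : J2 g (-z) = -J2 g z := by
  unfold J2
  have h := intervalIntegral.integral_comp_neg (a := 0) (b := z) (fun t => f2 t * g t)
  have h2 : (fun x => f2 (-x) * g (-x)) = fun x => f2 x * g x := by
    funext x; rw [f2_neg, hg.2.1]
  simp only [h2] at h
  have hs : ∫ t in (-z)..(0:ℝ), f2 t * g t = -∫ t in (0:ℝ)..(-z), f2 t * g t :=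
    intervalIntegral.integral_symm 0 (-z)
  rw [neg_zero, hs] at h
  linarith

theorem W_neg {G : ℝ} {g : ℝ → ℝ} (hg : Adm G g) (z : ℝ) : W g (-z) = W g z := by
  unfold W
  rw [f2_neg, f1_neg, lin_I1_neg hg, lin_J2_neg hg]
  ring

theorem W'_neg {G : ℝ} {g : ℝ → ℝ} (hg : Adm G g) (z : ℝ) : W' g (-z) = - W' g z := by
  unfold W'
  rw [d2_neg, d1_neg, lin_I1_neg hg, lin_J2_neg hg]
  ring

theorem lin_I1_bd {G : ℝ} {g : ℝ → ℝ} (hg : Adm G g) {z : ℝ} (hz : 0 ≤ z) :
    |I1 g z| ≤ 8 / 3 * G * exp (-3 * z) := by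
  unfold I1
  have h := (integrableOn_exp_mul_Ioi (a := -3) (by norm_num) z).const_mul (8 * G)
  have h1 : ‖∫ t in Ioi z, f1 t * g t‖ ≤ ∫ t in Ioi z, 8 * G * exp (-3 * t) := by
    refine norm_integral_le_of_norm_le h ?_
    filter_upwards [ae_restrict_mem measurableSet_Ioi] with t ht
    have ht0 : 0 ≤ t := hz.trans (le_of_lt ht)
    rw [Real.norm_eq_abs]
    have := lin_F_bd hg t
    rwa [abs_of_nonneg ht0] at this
  rw [Real.norm_eq_abs] at h1
  refine h1.trans (le_of_eq ?_)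
  rw [integral_const_mul, integral_exp_mul_Ioi (by norm_num)]
  ring

theorem lin_J2_bd {G : ℝ} {g : ℝ → ℝ} (hg : Adm G g) {z : ℝ} (hz : 0 ≤ z) :
    |J2 g z| ≤ 10 * G * exp z := by
  unfold J2
  have hG := lin_G_nonneg hg
  have hi : IntervalIntegrable (fun t => 10 * G * exp t) volume 0 z :=
    (continuous_const.mul continuous_exp).intervalIntegrable _ _
  have h1 : ‖∫ t in (0:ℝ)..z, f2 t * g t‖ ≤ ∫ t in (0:ℝ)..z, 10 * G * exp t := by
    refine intervalIntegral.norm_integral_le_of_norm_le hz ?_ hi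
    filter_upwards with t ht
    have ht0 : 0 ≤ t := ht.1.le
    rw [Real.norm_eq_abs, abs_mul]
    have a1 := f2_bd t
    have a2 := hg.2.2 t
    rw [abs_of_nonneg ht0] at a1 a2
    calc |f2 t| * |g t| ≤ (10 * exp (2 * t)) * (G * exp (-t)) :=
          mul_le_mul a1 a2 (abs_nonneg _) (by positivity)
      _ = 10 * G * (exp (2 * t) * exp (-t)) := by ring
      _ = 10 * G * exp t := by rw [← exp_add]; congr 2; ring
  rw [Real.norm_eq_abs] at h1
  refine h1.trans ?_
  rw [intervalIntegral.integral_const_mul, integral_exp, exp_zero]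
  have : 0 ≤ 10 * G := by positivity
  nlinarith

theorem lin_comb {G : ℝ} {g : ℝ → ℝ} (hg : Adm G g) {z : ℝ} (hz : 0 ≤ z) (α β : ℝ)
    (h1 : |α| ≤ 10 * exp (2 * z)) (h2 : |β| ≤ 8 * exp (-2 * z)) :
    |-α * I1 g z - β * J2 g z| ≤ 110 * G * exp (-z) := by
  have hG := lin_G_nonneg hg
  have i1 := lin_I1_bd hg hz
  have j2 := lin_J2_bd hg hz
  have e1 : |α| * |I1 g z| ≤ 80 / 3 * G * exp (-z) := by
    calc |α| * |I1 g z| ≤ (10 * exp (2 * z)) * (8 / 3 * G * exp (-3 * z)) :=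
          mul_le_mul h1 i1 (abs_nonneg _) (by positivity)
      _ = 80 / 3 * G * (exp (2 * z) * exp (-3 * z)) := by ring
      _ = 80 / 3 * G * exp (-z) := by rw [← exp_add]; congr 2; ring
  have e2 : |β| * |J2 g z| ≤ 80 * G * exp (-z) := by
    calc |β| * |J2 g z| ≤ (8 * exp (-2 * z)) * (10 * G * exp z) :=
          mul_le_mul h2 j2 (abs_nonneg _) (by positivity)
      _ = 80 * G * (exp (-2 * z) * exp z) := by ring
      _ = 80 * G * exp (-z) := by rw [← exp_add]; congr 2; ring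
  have e3 : |-α * I1 g z - β * J2 g z| ≤ |α| * |I1 g z| + |β| * |J2 g z| := by
    refine (abs_sub _ _).trans ?_
    rw [abs_mul, abs_mul, abs_neg]
  have e4 : 0 ≤ G * exp (-z) := by positivity
  linarith

theorem W_bd {G : ℝ} {g : ℝ → ℝ} (hg : Adm G g) (z : ℝ) :
    |W g z| ≤ 110 * G * exp (-|z|) := by
  have key : ∀ z : ℝ, 0 ≤ z → |W g z| ≤ 110 * G * exp (-z) := by
    intro z hz
    have a1 := f2_bd z
    have a2 := f1_bd z
    rw [abs_of_nonneg hz] at a1 a2
    exact lin_comb hg hz _ _ a1 a2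
  rcases le_total 0 z with hz | hz
  · rw [abs_of_nonneg hz]; exact key z hz
  · rw [abs_of_nonpos hz, ← W_neg hg z]
    exact key (-z) (by linarith)

theorem W'_bd {G : ℝ} {g : ℝ → ℝ} (hg : Adm G g) (z : ℝ) :
    |W' g z| ≤ 110 * G * exp (-|z|) := by
  have key : ∀ z : ℝ, 0 ≤ z → |W' g z| ≤ 110 * G * exp (-z) := by
    intro z hz
    have a1 := d2_bd z
    have a2 := d1_bd z
    rw [abs_of_nonneg hz] at a1 a2
    exact lin_comb hg hz _ _ a1 a2
  rcases le_total 0 z with hz | hz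
  · rw [abs_of_nonneg hz]; exact key z hz
  · rw [abs_of_nonpos hz, ← abs_neg (W' g z), ← W'_neg hg z]
    exact key (-z) (by linarith)

theorem lin_I1_sub {G : ℝ} {g h : ℝ → ℝ} (hg : Adm G g) (hh : Adm G h) (z : ℝ) :
    I1 (fun t => g t - h t) z = I1 g z - I1 h z := by
  unfold I1
  rw [← integral_sub (lin_int1 hg z) (lin_int1 hh z)]
  congr 1
  funext t
  ring

theorem lin_J2_sub {G : ℝ} {g h : ℝ → ℝ} (hg : Adm G g) (hh : Adm G h) (z : ℝ) :
    J2 (fun t => g t - h t) z = J2 g z - J2 h z := by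
  unfold J2
  have i1 : IntervalIntegrable (fun t => f2 t * g t) volume 0 z :=
    (lin_f2_cont.mul hg.1).intervalIntegrable _ _
  have i2 : IntervalIntegrable (fun t => f2 t * h t) volume 0 z :=
    (lin_f2_cont.mul hh.1).intervalIntegrable _ _
  rw [← intervalIntegral.integral_sub i1 i2]
  congr 1
  funext t
  ring

theorem W_sub {G : ℝ} {g h : ℝ → ℝ} (hg : Adm G g) (hh : Adm G h) (z : ℝ) :
    W (fun t => g t - h t) z = W g z - W h z := by
  unfold W
  rw [lin_I1_sub hg hh, lin_J2_sub hg hh]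
  ring

theorem W'_sub {G : ℝ} {g h : ℝ → ℝ} (hg : Adm G g) (hh : Adm G h) (z : ℝ) :
    W' (fun t => g t - h t) z = W' g z - W' h z := by
  unfold W'
  rw [lin_I1_sub hg hh, lin_J2_sub hg hh]
  ring

end Pool.Agent.R206.GD
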