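import Pool.Agent.R206.GD.Defs

/-!
Interface definitions for project GD (MP_b6986b_an).
-/

namespace Pool.Agent.R206.GD

open Real MeasureTheory Set Filter Topology

/-- what `sol_exists` produces -/
def Sol (a : ℝ) (U V M Y : ℝ → ℝ) : Prop :=
  (∀ z, HasDerivAt U (V z) z) ∧
  (∀ z, HasDerivAt V (2 * (ep a * Y z) * V z / (1 - ep a * M z)
      - 4 * (1 + ep a * M z) * U z * (1 - ep a * U z) * (U z - 1)) z) ∧
  (∀ z, HasDerivAt M (Y z) z) ∧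
  (∀ z, HasDerivAt Y ((M z - Ff (ep a) (sp a) (U z) (M z)) / a ^ 2) z) ∧
  (∀ z, |U z| ≤ 4 * exp (-|z|)) ∧ (∀ z, |M z| ≤ 20 * exp (-|z|)) ∧
  (∀ z, U (-z) = U z) ∧ (∀ z, M (-z) = M z) ∧ 1 ≤ U 0

/-- The system of the problem file, for unknowns `p(t,x)`, `n(t,x)`. -/
def Solves (s r : ℝ) (p n : ℝ → ℝ → ℝ) : Prop := ∀ t x : ℝ,
  deriv (fun τ => p τ x) t - deriv (deriv (p t)) x
      - 2 * deriv (fun y => Real.log (n t y)) x * deriv (p t) x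
    = (r * (1 - n t x) + 1) * s * p t x * (1 - p t x) * (p t x - (2 * s - 1) / s) ∧
  deriv (fun τ => n τ x) t - deriv (deriv (n t)) x
    = n t x * ((1 - s + s * (1 - p t x) ^ 2) * (r * (1 - n t x) + 1) - 1)

/-- Travelling wave of speed `c`. -/
def IsWave (s r c : ℝ) (P N : ℝ → ℝ) : Prop :=
  ContDiff ℝ 2 P ∧ ContDiff ℝ 2 N ∧ (∃ C : ℝ, ∀ ξ, |P ξ| ≤ C ∧ |N ξ| ≤ C) ∧
  (∀ ξ, 0 ≤ P ξ) ∧ (∀ ξ, 0 < N ξ) ∧
  Tendsto P atBot (𝓝 0) ∧ Tendsto N atBot (𝓝 1) ∧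
  Solves s r (fun t x => P (x - c * t)) (fun t x => N (x - c * t))

end Pool.Agent.R206.GD
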