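import Pool.Agent.R206.GD.Ode
import Pool.Agent.R206.GD.Bd
import Pool.Agent.R206.GD.Lin
import Pool.Agent.R206.GD.Ker
import Pool.Agent.R206.GD.Fix
import Pool.Agent.R206.GD.Alg
import Pool.Agent.R206.GD.SolDef

/-!
GD-CON: existence of the pulse from the pieces.
-/

namespace Pool.Agent.R206.GD

open Real MeasureTheory Set Filter Topology

namespace ConP

lemma consts {a : ℝ} (ha : 0 < a) (ha2 : a ≤ 1 / 10 ^ 12) :
    0 < ep a ∧ ep a ≤ ep a / a ∧ ep a / a ≤ 1 / 10 ^ 11 ∧ 1 / 2 ≤ sp a ∧ sp a ≤ 51 / 100 ∧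
      a ≤ 1 / 2 := by
  have hep0 : 0 < ep a := by unfold ep; positivity
  have ha1 : a ≤ 1 := ha2.trans (by norm_num)
  have hsq : a ^ 2 ≤ 1 / 10 ^ 4 := by nlinarith
  refine ⟨hep0, ?_, ?_, ?_, ?_, ha2.trans (by norm_num)⟩
  · rw [le_div_iff₀ ha]
    nlinarith
  · have h1 : ep a / a = 8 * a / (1 + 4 * a ^ 2) := by
      unfold ep
      field_simp
    rw [h1, div_le_iff₀ (by positivity)]
    nlinarith [sq_nonneg a]
  · unfold sp
    nlinarith [sq_nonneg a]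
  · unfold sp
    linarith

lemma adm_sub {G d : ℝ} {q q' : ℝ → ℝ} (hq : Adm G q) (hq' : Adm G q')
    (h : ∀ z, |q z - q' z| ≤ d * exp (-|z|)) : Adm d (fun t => q t - q' t) :=
  ⟨hq.1.sub hq'.1, fun z => by simp only [hq.2.1 z, hq'.2.1 z], h⟩

lemma one_sub_ne {a : ℝ} (ha : 0 < a) (ha2 : a ≤ 1 / 10 ^ 12) {g : ℝ → ℝ} (hg : Adm 10 g)
    (z : ℝ) : 1 - ep a * Mo a g z ≠ 0 := by
  obtain ⟨he, he1, heta, -, -, hah⟩ := consts ha ha2
  have h1 := Mo_bd ha hah hg z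
  have h2 : exp (-|z|) ≤ 1 := Real.exp_le_one_iff.2 (by simp)
  have h3 : |Mo a g z| ≤ 20 := h1.trans (by linarith)
  have h4 : |ep a * Mo a g z| ≤ 1 / 10 ^ 11 * 20 := by
    rw [abs_mul, abs_of_pos he]
    exact mul_le_mul (he1.trans heta) h3 (abs_nonneg _) (by norm_num)
  have h5 := (abs_le.1 h4).2
  intro h0
  norm_num at h5
  linarith

lemma W_bd' {q : ℝ → ℝ} (hq : Adm (1 / 10 ^ 6) q) (z : ℝ) :
    |W q z| ≤ 11 / 10 ^ 5 * exp (-|z|) := by
  have := W_bd hq z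
  have h : (110 : ℝ) * (1 / 10 ^ 6) = 11 / 10 ^ 5 := by norm_num
  rwa [h] at this

lemma W'_bd' {q : ℝ → ℝ} (hq : Adm (1 / 10 ^ 6) q) (z : ℝ) :
    |W' q z| ≤ 11 / 10 ^ 5 * exp (-|z|) := by
  have := W'_bd hq z
  have h : (110 : ℝ) * (1 / 10 ^ 6) = 11 / 10 ^ 5 := by norm_num
  rwa [h] at this

lemma Mo_bd' {a : ℝ} (ha : 0 < a) (ha2 : a ≤ 1 / 10 ^ 12) {g : ℝ → ℝ} (hg : Adm 10 g) (z : ℝ) :
    |Mo a g z| ≤ 20 * exp (-|z|) := by
  have := Mo_bd ha (consts ha ha2).2.2.2.2.2 hg z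
  have h : (2 : ℝ) * 10 = 20 := by norm_num
  rwa [h] at this

lemma eMo'_bd {a G : ℝ} (ha : 0 < a) (ha2 : a ≤ 1 / 10 ^ 12) {g : ℝ → ℝ} (hg : Adm G g) (z : ℝ) :
    |ep a * Mo' a g z| ≤ 2 * (ep a / a) * G * exp (-|z|) := by
  obtain ⟨he, -, -, -, -, hah⟩ := consts ha ha2
  have h1 := Mo'_bd ha hah hg z
  rw [abs_mul, abs_of_pos he]
  calc ep a * |Mo' a g z| ≤ ep a * (2 * G / a * exp (-|z|)) := mul_le_mul_of_nonneg_left h1 he.le
    _ = 2 * (ep a / a) * G * exp (-|z|) := by ring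

lemma cont_u0 : Continuous u0 := continuous_iff_continuousAt.2 fun x => (u0_deriv x).continuousAt
lemma cont_v0 : Continuous v0 := continuous_iff_continuousAt.2 fun x => (v0_deriv x).continuousAt
lemma cont_W {G : ℝ} {q : ℝ → ℝ} (hq : Adm G q) : Continuous (W q) :=
  continuous_iff_continuousAt.2 fun x => (W_deriv hq x).continuousAt
lemma cont_W' {G : ℝ} {q : ℝ → ℝ} (hq : Adm G q) : Continuous (W' q) :=
  continuous_iff_continuousAt.2 fun x => (W'_deriv hq x).continuousAt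
lemma cont_Mo {a G : ℝ} (ha : 0 < a) {q : ℝ → ℝ} (hq : Adm G q) : Continuous (Mo a q) :=
  continuous_iff_continuousAt.2 fun x => (Mo_deriv ha hq x).continuousAt
lemma cont_Mo' {a G : ℝ} (ha : 0 < a) {q : ℝ → ℝ} (hq : Adm G q) : Continuous (Mo' a q) :=
  continuous_iff_continuousAt.2 fun x => (Mo'_deriv ha hq x).continuousAt

end ConP

open ConP

theorem fp_exists {a : ℝ} (ha : 0 < a) (ha2 : a ≤ 1 / 10 ^ 12) :
    ∃ q g : ℝ → ℝ, Adm (1 / 10 ^ 6) q ∧ Adm 10 g ∧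
      (∀ z, Qf (ep a) (u0 z) (v0 z) (W q z) (W' q z) (Mo a g z) (ep a * Mo' a g z) = q z) ∧
      (∀ z, Ff (ep a) (sp a) (u0 z + W q z) (Mo a g z) = g z) := by
  obtain ⟨he, he1, heta, hs, hs1, hah⟩ := consts ha ha2
  have hE : ∀ z : ℝ, 0 < exp (-|z|) := fun z => exp_pos _
  have hE1 : ∀ z : ℝ, exp (-|z|) ≤ 1 := fun z => Real.exp_le_one_iff.2 (by simp)
  have hb : ∀ {g : ℝ → ℝ}, Adm 10 g → ∀ z,
      |ep a * Mo' a g z| ≤ 20 * (ep a / a) * exp (-|z|) := by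
    intro g hg z
    have := eMo'_bd ha ha2 hg z
    have h : 2 * (ep a / a) * 10 = 20 * (ep a / a) := by ring
    rwa [h] at this
  refine fix (1 / 10 ^ 6) 10 (1 / 10 ^ 3) (by norm_num) (by norm_num) (by norm_num)
    (fun q g z => Qf (ep a) (u0 z) (v0 z) (W q z) (W' q z) (Mo a g z) (ep a * Mo' a g z))
    (fun q g z => Ff (ep a) (sp a) (u0 z + W q z) (Mo a g z)) ?_ ?_
  · intro q g hq hg
    refine ⟨⟨?_, ?_, ?_⟩, ⟨?_, ?_, ?_⟩⟩
    · unfold Qf
      have h1 := cont_u0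
      have h2 := cont_v0
      have h3 := cont_W hq
      have h4 := cont_W' hq
      have h5 := cont_Mo ha hg
      have h6 := cont_Mo' ha hg
      refine Continuous.sub (Continuous.add ?_ (Continuous.div ?_ ?_ (one_sub_ne ha ha2 hg))) ?_
      all_goals fun_prop
    · intro z
      simp only [u0_neg, v0_neg, W_neg hq, W'_neg hq, Mo_neg ha hg, Mo'_neg ha hg]
      unfold Qf
      ring
    · intro z
      exact alg_Q (hE z) (hE1 z) he he1 heta (u0_bd z) (v0_bd z) (W_bd' hq z) (W'_bd' hq z)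
        (Mo_bd' ha ha2 hg z) (hb hg z)
    · unfold Ff
      have h1 := cont_u0
      have h3 := cont_W hq
      have h5 := cont_Mo ha hg
      fun_prop
    · intro z
      simp only [u0_neg, W_neg hq, Mo_neg ha hg]
    · intro z
      exact alg_F (hE z) (hE1 z) he he1 heta hs hs1 (u0_bd z) (W_bd' hq z) (Mo_bd' ha ha2 hg z)
  · intro q g q' g' d hq hg hq' hg' hd hdq hdg
    have aq : Adm (1 / 10 ^ 3 * d) (fun t => q t - q' t) := adm_sub hq hq' hdq
    have ag : Adm d (fun t => g t - g' t) := adm_sub hg hg' hdg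
    have dw : ∀ z, |W q z - W q' z| ≤ 11 / 100 * d * exp (-|z|) := by
      intro z
      rw [← W_sub hq hq' z]
      refine (W_bd aq z).trans (le_of_eq ?_)
      ring
    have dp : ∀ z, |W' q z - W' q' z| ≤ 11 / 100 * d * exp (-|z|) := by
      intro z
      rw [← W'_sub hq hq' z]
      refine (W'_bd aq z).trans (le_of_eq ?_)
      ring
    have dM : ∀ z, |Mo a g z - Mo a g' z| ≤ 2 * d * exp (-|z|) := by
      intro z
      rw [← Mo_sub ha hg hg' z]
      exact Mo_bd ha hah ag z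
    have db : ∀ z, |ep a * Mo' a g z - ep a * Mo' a g' z|
        ≤ 2 * (ep a / a) * d * exp (-|z|) := by
      intro z
      rw [← mul_sub, ← Mo'_sub ha hg hg' z]
      exact eMo'_bd ha ha2 ag z
    constructor
    · intro z
      exact alg_Q_lip (hE z) (hE1 z) he he1 heta (u0_bd z) (v0_bd z) (W_bd' hq z) (W'_bd' hq z)
        (Mo_bd' ha ha2 hg z) (hb hg z) (W_bd' hq' z) (W'_bd' hq' z) (Mo_bd' ha ha2 hg' z)
        (hb hg' z) hd (dw z) (dp z) (dM z) (db z)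
    · intro z
      exact alg_F_lip (hE z) (hE1 z) he he1 heta hs hs1 (u0_bd z) (W_bd' hq z)
        (Mo_bd' ha ha2 hg z) (W_bd' hq' z) (Mo_bd' ha ha2 hg' z) hd (dw z) (dM z)

theorem sol_exists {a : ℝ} (ha : 0 < a) (ha2 : a ≤ 1 / 10 ^ 12) :
    ∃ U V M Y : ℝ → ℝ, Sol a U V M Y := by
  obtain ⟨q, g, hq, hg, hQ, hF⟩ := fp_exists ha ha2
  refine ⟨fun z => u0 z + W q z, fun z => v0 z + W' q z, Mo a g, Mo' a g, ?_, ?_, ?_, ?_, ?_,
    ?_, ?_, ?_, ?_⟩
  · intro z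
    exact (u0_deriv z).add (W_deriv hq z)
  · intro z
    have h1 := (v0_deriv z).add (W'_deriv hq z)
    refine h1.congr_deriv ?_
    have hc : 0 < cosh z := cosh_pos z
    have hu : 12 / cosh z ^ 2 = 8 * u0 z := by
      unfold u0
      ring
    have hne := one_sub_ne ha ha2 hg z
    rw [hu, ← hQ z]
    unfold Qf
    field_simp
    ring
  · intro z
    exact Mo_deriv ha hg z
  · intro z
    have h1 := Mo'_deriv ha hg z
    rw [← hF z] at h1
    exact h1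
  · intro z
    have h1 := u0_bd z
    have h2 := W_bd' hq z
    have h3 : 0 < exp (-|z|) := exp_pos _
    refine (abs_add_le _ _).trans ?_
    norm_num at h2
    nlinarith
  · intro z
    exact Mo_bd' ha ha2 hg z
  · intro z
    simp only [u0_neg, W_neg hq]
  · intro z
    exact Mo_neg ha hg z
  · have h1 := (abs_le.1 (W_bd' hq 0)).1
    have h2 : u0 0 = 3 / 2 := by simp [u0]
    simp only [h2]
    simp only [abs_zero, neg_zero, exp_zero] at h1
    norm_num at h1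
    linarith

end Pool.Agent.R206.GD
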