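import Mathlib

/-!
Definitions for project GD (MP_b6986b_an).
-/

namespace Pool.Agent.R206.GD

open Real MeasureTheory Set Filter

/-- odd homogeneous solution `sinh / cosh^3` -/
noncomputable def f1 (z : ℝ) : ℝ := sinh z / cosh z ^ 3

/-- derivative of `f1` -/
noncomputable def d1 (z : ℝ) : ℝ := (cosh z ^ 2 - 3 * sinh z ^ 2) / cosh z ^ 4

/-- even homogeneous solution -/
noncomputable def f2 (z : ℝ) : ℝ :=
  -1 / cosh z ^ 2 + 15 / 8 * z * sinh z / cosh z ^ 3 + 9 / 8 * sinh z ^ 2 / cosh z ^ 2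
    + 1 / 4 * sinh z ^ 4 / cosh z ^ 2

/-- derivative of `f2` -/
noncomputable def d2 (z : ℝ) : ℝ :=
  49 / 8 * sinh z / cosh z ^ 3 + 15 / 8 * z * (cosh z ^ 2 - 3 * sinh z ^ 2) / cosh z ^ 4
    + sinh z ^ 3 / cosh z - sinh z ^ 5 / (2 * cosh z ^ 3)

noncomputable def I1 (g : ℝ → ℝ) (z : ℝ) : ℝ := ∫ t in Ioi z, f1 t * g t

noncomputable def J2 (g : ℝ → ℝ) (z : ℝ) : ℝ := ∫ t in (0:ℝ)..z, f2 t * g t

/-- solution operator for `w'' + (12/cosh^2 - 4) w = g` -/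
noncomputable def W (g : ℝ → ℝ) (z : ℝ) : ℝ := - f2 z * I1 g z - f1 z * J2 g z

/-- its derivative -/
noncomputable def W' (g : ℝ → ℝ) (z : ℝ) : ℝ := - d2 z * I1 g z - d1 z * J2 g z

noncomputable def Ka (a : ℝ) (g : ℝ → ℝ) (z : ℝ) : ℝ := ∫ t in Iic z, exp (t / a) * g t

noncomputable def Kb (a : ℝ) (g : ℝ → ℝ) (z : ℝ) : ℝ := ∫ t in Ioi z, exp (-t / a) * g t

/-- solution operator for `M - a^2 M'' = g` -/
noncomputable def Mo (a : ℝ) (g : ℝ → ℝ) (z : ℝ) : ℝ :=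
  (exp (-z / a) * Ka a g z + exp (z / a) * Kb a g z) / (2 * a)

/-- its derivative -/
noncomputable def Mo' (a : ℝ) (g : ℝ → ℝ) (z : ℝ) : ℝ :=
  (exp (z / a) * Kb a g z - exp (-z / a) * Ka a g z) / (2 * a ^ 2)

/-- continuous, even, bounded by `G e^{-|z|}` -/
def Adm (G : ℝ) (g : ℝ → ℝ) : Prop :=
  Continuous g ∧ (∀ z, g (-z) = g z) ∧ ∀ z, |g z| ≤ G * exp (-|z|)

/-- the unperturbed pulse and its derivative -/
noncomputable def u0 (z : ℝ) : ℝ := 3 / 2 / cosh z ^ 2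

noncomputable def v0 (z : ℝ) : ℝ := - 3 * sinh z / cosh z ^ 3

/-- `Q` as a function of the values `u0, v0, w, p, M, b` (`b = ε M'`). -/
noncomputable def Qf (e u v w p M b : ℝ) : ℝ :=
  - 4 * w ^ 2 + 2 * b * (v + p) / (1 - e * M)
    - 4 * e * (M - (u + w) - e * M * (u + w)) * (u + w) * (u + w - 1)

/-- `F` as a function of the values `U, M`. -/
noncomputable def Ff (e s U M : ℝ) : ℝ :=
  e * M ^ 2 + (1 - e ^ 2 * M ^ 2) * s * U * (2 - e * U)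

noncomputable def ep (a : ℝ) : ℝ := 8 * a ^ 2 / (1 + 4 * a ^ 2)

noncomputable def sp (a : ℝ) : ℝ := (1 + 4 * a ^ 2) / 2

end Pool.Agent.R206.GD
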