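import Pool.Agent.R206.GD.SolDef

/-!
GD-POS: nonnegativity of the pulse by the maximum principle.
-/

namespace Pool.Agent.R206.GD

open Real MeasureTheory Set Filter Topology

theorem sol_nonneg {a : ℝ} (ha : 0 < a) (ha2 : a ≤ 1 / 10 ^ 12) {U V M Y : ℝ → ℝ}
    (h : Sol a U V M Y) (z : ℝ) : 0 ≤ U z := by
  obtain ⟨hU, hV, -, -, hUb, hMb, -, -, -⟩ := h
  by_contra hneg
  push Not at hneg
  -- smallness of `ep a`
  have hep0 : 0 < ep a := by unfold ep; positivity
  have hep1 : ep a ≤ 1 / 100 := by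
    unfold ep
    rw [div_le_iff₀ (by positivity)]
    nlinarith [sq_nonneg a]
  have hUc : Continuous U := continuous_iff_continuousAt.2 fun x => (hU x).continuousAt
  -- the minimum is attained
  obtain ⟨R, hR⟩ : ∃ R : ℝ, ∀ x, R ≤ x → 4 * exp (-x) < -U z := by
    have h1 : Tendsto (fun x : ℝ => 4 * exp (-x)) atTop (𝓝 (4 * 0)) :=
      (Real.tendsto_exp_neg_atTop_nhds_zero).const_mul 4
    rw [mul_zero] at h1
    exact eventually_atTop.1 (h1.eventually (gt_mem_nhds (by linarith)))
  set R' := max R |z| with hR'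
  have hzR : z ∈ Icc (-R') R' := by
    have := le_max_right R |z|
    exact ⟨by linarith [neg_abs_le z], by linarith [le_abs_self z]⟩
  obtain ⟨z1, hz1, hmin⟩ := isCompact_Icc.exists_isMinOn ⟨z, hzR⟩ hUc.continuousOn
  have hz1U : U z1 ≤ U z := hmin hzR
  have hglob : ∀ x, U z1 ≤ U x := by
    intro x
    by_cases hx : x ∈ Icc (-R') R'
    · exact hmin hx
    · have h1 : R' ≤ |x| := by
        by_contra hlt
        push Not at hlt
        exact hx ⟨(abs_le.1 hlt.le).1, (abs_le.1 hlt.le).2⟩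
      have h2 := hR |x| ((le_max_left R |z|).trans h1)
      have h3 := (abs_le.1 (hUb x)).1
      linarith
  have hlm : IsLocalMin U z1 := Filter.Eventually.of_forall hglob
  have hV0 : V z1 = 0 := hlm.hasDerivAt_eq_zero (hU z1)
  have hdU : deriv U = V := funext fun x => (hU x).deriv
  have hUneg : U z1 < 0 := lt_of_le_of_lt hz1U hneg
  have hV1 := hV z1
  rw [hV0] at hV1
  have hexp : exp (-|z1|) ≤ 1 := Real.exp_le_one_iff.2 (by simp)
  have hM20 : |M z1| ≤ 20 := (hMb z1).trans (by linarith)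
  have hval : 2 * (ep a * Y z1) * 0 / (1 - ep a * M z1)
      - 4 * (1 + ep a * M z1) * U z1 * (1 - ep a * U z1) * (U z1 - 1) < 0 := by
    have h1 : 0 < 1 + ep a * M z1 := by
      have h2 : |ep a * M z1| ≤ 1 / 100 * 20 := by
        rw [abs_mul, abs_of_pos hep0]
        exact mul_le_mul hep1 hM20 (abs_nonneg _) (by norm_num)
      have := (abs_le.1 h2).1
      linarith
    have h3 : 0 < 1 - ep a * U z1 := by nlinarith
    have h4 : 0 < U z1 * (U z1 - 1) := mul_pos_of_neg_of_neg hUneg (by linarith)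
    have h5 : 0 < (1 + ep a * M z1) * (1 - ep a * U z1) * (U z1 * (U z1 - 1)) :=
      mul_pos (mul_pos h1 h3) h4
    have h6 : 2 * (ep a * Y z1) * 0 / (1 - ep a * M z1) = 0 := by simp
    rw [h6]
    nlinarith
  have hdd : deriv (deriv U) z1 < 0 := by
    rw [hdU, hV1.deriv]
    exact hval
  have hmax : IsLocalMax U z1 :=
    isLocalMax_of_deriv_deriv_neg hdd (by rw [hdU]; exact hV0) (hU z1).continuousAt
  have hconst : U =ᶠ[𝓝 z1] fun _ => U z1 := by
    filter_upwards [hmax] with x hx
    exact le_antisymm hx (hglob x)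
  have hdconst : deriv U =ᶠ[𝓝 z1] fun _ => 0 := by
    have := hconst.deriv
    simpa using this
  have : deriv (deriv U) z1 = 0 := by
    rw [hdconst.deriv_eq]
    simp
  linarith

end Pool.Agent.R206.GD
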