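import Pool.Agent.R206.GD.SolDef
import Pool.Agent.R206.GD.Pos

/-! # GD-FIN: from the solution of the ODE system to the travelling wave -/

namespace Pool.Agent.R206.GD

open Real MeasureTheory Set Filter Topology

namespace FinAux

theorem c2_of {U V A : ℝ → ℝ} (h1 : ∀ z, HasDerivAt U (V z) z) (h2 : ∀ z, HasDerivAt V (A z) z)
    (hA : Continuous A) : ContDiff ℝ 2 U := by
  have e1 : deriv U = V := funext fun z => (h1 z).deriv
  have e2 : deriv V = A := funext fun z => (h2 z).deriv
  have hV : ContDiff ℝ 1 V := by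
    rw [contDiff_one_iff_deriv]
    exact ⟨fun z => (h2 z).differentiableAt, by rw [e2]; exact hA⟩
  have h3 : ContDiff ℝ (1 + 1) U := by
    rw [contDiff_succ_iff_deriv]
    refine ⟨fun z => (h1 z).differentiableAt, fun h => ?_, by rw [e1]; exact hV⟩
    exact absurd h (by simp)
  have e3 : (1 : WithTop ℕ∞) + 1 = 2 := one_add_one_eq_two
  rwa [e3] at h3

theorem scale {U V : ℝ → ℝ} (h1 : ∀ z, HasDerivAt U (V z) z) (a c : ℝ) (x : ℝ) :
    HasDerivAt (fun x => c * U (a * x)) (c * a * V (a * x)) x := by
  have h2 : HasDerivAt (fun x : ℝ => a * x) (a * 1) x := (hasDerivAt_id' x).const_mul a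
  have h3 := ((h1 (a * x)).comp x h2).const_mul c
  refine h3.congr_deriv ?_
  ring

theorem tend {U : ℝ → ℝ} {a c C : ℝ} (ha : 0 < a) (hU : ∀ z, |U z| ≤ C * exp (-|z|)) :
    Tendsto (fun x => c * U (a * x)) atBot (𝓝 0) := by
  have h1 : Tendsto (fun x : ℝ => |c| * (C * exp (-|a * x|))) atBot (𝓝 (|c| * (C * 0))) := by
    refine (Tendsto.const_mul C ?_).const_mul |c|
    refine tendsto_exp_atBot.comp ?_
    refine tendsto_neg_atTop_atBot.comp ?_
    refine tendsto_abs_atBot_atTop.comp ?_
    exact tendsto_id.const_mul_atBot ha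
  rw [mul_zero, mul_zero] at h1
  refine squeeze_zero_norm (fun x => ?_) h1
  rw [norm_mul, Real.norm_eq_abs, Real.norm_eq_abs]
  exact mul_le_mul_of_nonneg_left (hU _) (abs_nonneg _)

end FinAux

open FinAux

theorem wave_of_sol {a : ℝ} (ha : 0 < a) (ha2 : a ≤ 1 / 10 ^ 12) {U V M Y : ℝ → ℝ}
    (h : Sol a U V M Y) :
    ∃ P N : ℝ → ℝ, IsWave (sp a) 1 0 P N ∧ (¬ ∀ ξ, P ξ = 0) ∧ ¬ Monotone P ∧ ¬ Antitone N := by
  have hpos := fun z => sol_nonneg ha ha2 h z
  obtain ⟨hU, hV, hM, hY, bU, bM, eU, eM, hU0⟩ := h
  have hden : 0 < 1 + 4 * a ^ 2 := by positivity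
  have he0 : 0 < ep a := by unfold ep; positivity
  have he1 : ep a ≤ 1 / 100 := by
    unfold ep
    rw [div_le_iff₀ hden]
    have : a ^ 2 ≤ 1 / 10 ^ 12 * a := by nlinarith
    nlinarith
  have hs0 : 0 < sp a := by unfold sp; positivity
  have hse : sp a * ep a = 4 * a ^ 2 := by
    unfold sp ep
    field_simp
    norm_num
  have hs2 : (2 * sp a - 1) / sp a = ep a := by
    unfold sp ep
    field_simp
    ring
  set e := ep a with hedef
  set s := sp a with hsdef
  have bU' : ∀ z, |U z| ≤ 4 := fun z => (bU z).trans (by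
    have : exp (-|z|) ≤ 1 := exp_le_one_iff.2 (by have := abs_nonneg z; linarith)
    linarith)
  have bM' : ∀ z, |M z| ≤ 20 := fun z => (bM z).trans (by
    have : exp (-|z|) ≤ 1 := exp_le_one_iff.2 (by have := abs_nonneg z; linarith)
    linarith)
  have hN0 : ∀ z, 0 < 1 - e * M z := by
    intro z
    have h1 := (abs_le.1 (bM' z)).2
    nlinarith
  have hUc : Continuous U := continuous_iff_continuousAt.2 fun z => (hU z).continuousAt
  have hVc : Continuous V := continuous_iff_continuousAt.2 fun z => (hV z).continuousAt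
  have hMc : Continuous M := continuous_iff_continuousAt.2 fun z => (hM z).continuousAt
  have hYc : Continuous Y := continuous_iff_continuousAt.2 fun z => (hY z).continuousAt
  have hU2 : ContDiff ℝ 2 U := by
    refine c2_of hU hV ?_
    refine Continuous.sub (Continuous.div (by fun_prop) (by fun_prop) fun z => (hN0 z).ne') ?_
    fun_prop
  have hM2 : ContDiff ℝ 2 M := by
    refine c2_of hM hY ?_
    unfold Ff
    fun_prop
  set P : ℝ → ℝ := fun x => e * U (a * x) with hP
  set N : ℝ → ℝ := fun x => 1 - e * M (a * x) with hN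
  have P1 : ∀ x, HasDerivAt P (e * a * V (a * x)) x := fun x => scale hU a e x
  have P2 := fun x => scale hV a (e * a) x
  have N1 : ∀ x, HasDerivAt N (-(e * a * Y (a * x))) x := fun x => by
    have := (scale hM a e x).const_sub 1
    exact this
  have N2 : ∀ x, HasDerivAt (fun x => -(e * a * Y (a * x)))
      (-(e * a * a * ((M (a * x) - Ff e s (U (a * x)) (M (a * x))) / a ^ 2))) x := fun x =>
    (scale hY a (e * a) x).fun_neg
  have dP : deriv P = fun x => e * a * V (a * x) := funext fun x => (P1 x).deriv
  have dN : deriv N = fun x => -(e * a * Y (a * x)) := funext fun x => (N1 x).deriv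
  have hPt : Tendsto P atBot (𝓝 0) := tend ha bU
  have hNt : Tendsto N atBot (𝓝 1) := by
    have h1 := (tend (c := e) ha bM).const_sub 1
    rw [sub_zero] at h1
    exact h1
  have evP : ∀ x, P (-x) = P x := fun x => by
    simp only [hP]
    rw [mul_neg, eU]
  have evN : ∀ x, N (-x) = N x := fun x => by
    simp only [hN]
    rw [mul_neg, eM]
  have hP0 : 0 < P 0 := by
    simp only [hP, mul_zero]
    exact mul_pos he0 (by linarith)
  refine ⟨P, N, ⟨?_, ?_, ?_, ?_, ?_, hPt, hNt, ?_⟩, ?_, ?_, ?_⟩
  · exact contDiff_const.mul (hU2.comp (contDiff_const.mul contDiff_id))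
  · exact contDiff_const.sub (contDiff_const.mul (hM2.comp (contDiff_const.mul contDiff_id)))
  · refine ⟨2, fun x => ⟨?_, ?_⟩⟩
    · rw [hP, abs_mul, abs_of_pos he0]
      have := bU' (a * x)
      nlinarith [abs_nonneg (U (a * x))]
    · rw [abs_le]
      have h1 := abs_le.1 (bM' (a * x))
      simp only [hN]
      constructor <;> nlinarith
  · intro x
    exact mul_nonneg he0.le (hpos _)
  · intro x
    exact hN0 _
  · intro t x
    have e1 : (fun t x => P (x - 0 * t)) t = P := by
      funext y; simp
    have e2 : (fun t x => N (x - 0 * t)) t = N := by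
      funext y; simp
    have e3 : (fun τ : ℝ => (fun t x => P (x - 0 * t)) τ x) = fun _ => P x := by
      funext τ; simp
    have e4 : (fun τ : ℝ => (fun t x => N (x - 0 * t)) τ x) = fun _ => N x := by
      funext τ; simp
    have hNx := hN0 (a * x)
    have hlog : deriv (fun y => Real.log (N y)) x = -(e * a * Y (a * x)) / N x :=
      ((N1 x).log (hN0 (a * x)).ne').deriv
    have hPdd : deriv (deriv P) x = e * a * a * (2 * (e * Y (a * x)) * V (a * x) / (1 - e * M (a * x))
      - 4 * (1 + e * M (a * x)) * U (a * x) * (1 - e * U (a * x)) * (U (a * x) - 1)) := by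
      rw [dP]
      exact (P2 x).deriv
    have hNdd : deriv (deriv N) x =
        -(e * a * a * ((M (a * x) - Ff e s (U (a * x)) (M (a * x))) / a ^ 2)) := by
      rw [dN]
      exact (N2 x).deriv
    constructor
    · rw [e3, deriv_const, e1]
      have e5 : (fun y => Real.log ((fun t x => N (x - 0 * t)) t y)) = fun y => Real.log (N y) := by
        funext y; simp
      rw [e5, hlog, hPdd, dP]
      have e6 : (fun t x => N (x - 0 * t)) t x = 1 - e * M (a * x) := by simp [hN]
      have e7 : (fun t x => P (x - 0 * t)) t x = e * U (a * x) := by simp [hP]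
      rw [hs2]
      simp only [zero_mul, sub_zero]
      simp only [hN, hP]
      have h9 : e * a * a * 4 = s * e * e := by rw [hse]; ring
      have hne : 1 - e * M (a * x) ≠ 0 := hNx.ne'
      have e8 : 0 - e * a * a * (2 * (e * Y (a * x)) * V (a * x) / (1 - e * M (a * x))
          - 4 * (1 + e * M (a * x)) * U (a * x) * (1 - e * U (a * x)) * (U (a * x) - 1)) -
          2 * (-(e * a * Y (a * x)) / (1 - e * M (a * x))) * (e * a * V (a * x)) =
          (e * a * a * 4) * ((1 + e * M (a * x)) * U (a * x) * (1 - e * U (a * x)) * (U (a * x) - 1)) := by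
        field_simp
        ring
      rw [e8, h9]
      ring
    · rw [e4, deriv_const, e2, hNdd]
      simp only [zero_mul, sub_zero]
      simp only [hN, hP]
      have ha' : a ≠ 0 := ha.ne'
      have e8 : 0 - -(e * a * a * ((M (a * x) - Ff e s (U (a * x)) (M (a * x))) / a ^ 2)) =
          e * (M (a * x) - Ff e s (U (a * x)) (M (a * x))) := by
        field_simp
        ring
      rw [e8]
      unfold Ff
      ring
  · intro hall
    have := hall 0
    linarith
  · intro hmono
    have h1 : ∀ᶠ x in atBot, P 0 ≤ P x := by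
      filter_upwards [eventually_le_atBot (0 : ℝ)] with x hx
      rw [← evP x]
      exact hmono (by linarith)
    have h2 := ge_of_tendsto hPt h1
    linarith
  · intro hanti
    have hNc : ∀ x, x ≤ 0 → N x = N 0 := by
      intro x hx
      apply le_antisymm
      · rw [← evN x]
        exact hanti (by linarith)
      · exact hanti hx
    have hN01 : N 0 = 1 := by
      have h1 : Tendsto N atBot (𝓝 (N 0)) := by
        refine tendsto_const_nhds.congr' ?_
        filter_upwards [eventually_le_atBot (0 : ℝ)] with x hx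
        exact (hNc x hx).symm
      exact tendsto_nhds_unique h1 hNt
    have hN1 : ∀ x, N x = 1 := by
      intro x
      rcases le_total x 0 with hx | hx
      · rw [hNc x hx, hN01]
      · rw [← evN x, hNc (-x) (by linarith), hN01]
    have hM0 : ∀ z, M z = 0 := by
      intro z
      have h1 := hN1 (z / a)
      simp only [hN] at h1
      rw [mul_div_cancel₀ _ ha.ne'] at h1
      have h2 : e * M z = 0 := by linarith
      rcases mul_eq_zero.1 h2 with h3 | h3
      · exact absurd h3 he0.ne'
      · exact h3
    have hMf : M = fun _ => (0 : ℝ) := funext hM0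
    have hY0 : ∀ z, Y z = 0 := by
      intro z
      have h1 := (hM z).deriv
      rw [hMf, deriv_const] at h1
      exact h1.symm
    have hYf : Y = fun _ => (0 : ℝ) := funext hY0
    have h1 := (hY 0).deriv
    rw [hYf, deriv_const, hM0 0] at h1
    have h2 : Ff e s (U 0) 0 = 0 := by
      have ha' : a ≠ 0 := ha.ne'
      have h3 : (0 - Ff e s (U 0) 0) / a ^ 2 = 0 := h1.symm
      rw [div_eq_zero_iff] at h3
      rcases h3 with h3 | h3
      · linarith
      · exact absurd h3 (pow_ne_zero 2 ha')
    unfold Ff at h2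
    have h3 := (abs_le.1 (bU' 0)).2
    have h4 : 0 < s * U 0 * (2 - e * U 0) := by
      refine mul_pos (mul_pos hs0 (by linarith)) ?_
      nlinarith
    nlinarith
    
end Pool.Agent.R206.GD
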