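import Pool.Agent.R206.GD.Defs

set_option linter.unusedSimpArgs false
set_option linter.unusedTactic false

namespace Pool.Agent.R206.GD

open Real MeasureTheory Set Filter

theorem odePw3 {C S : ℝ} (h : C ^ 2 = S ^ 2 + 1) : C ^ 3 = C * (S ^ 2 + 1) := by
  rw [← h]; ring
theorem odePw4 {C S : ℝ} (h : C ^ 2 = S ^ 2 + 1) : C ^ 4 = (S ^ 2 + 1) ^ 2 := by
  rw [← h]; ring
theorem odePw5 {C S : ℝ} (h : C ^ 2 = S ^ 2 + 1) : C ^ 5 = C * (S ^ 2 + 1) ^ 2 := by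
  rw [← h]; ring
theorem odePw6 {C S : ℝ} (h : C ^ 2 = S ^ 2 + 1) : C ^ 6 = (S ^ 2 + 1) ^ 3 := by
  rw [← h]; ring
theorem odePw7 {C S : ℝ} (h : C ^ 2 = S ^ 2 + 1) : C ^ 7 = C * (S ^ 2 + 1) ^ 3 := by
  rw [← h]; ring
theorem odePw8 {C S : ℝ} (h : C ^ 2 = S ^ 2 + 1) : C ^ 8 = (S ^ 2 + 1) ^ 4 := by
  rw [← h]; ring
theorem odePw9 {C S : ℝ} (h : C ^ 2 = S ^ 2 + 1) : C ^ 9 = C * (S ^ 2 + 1) ^ 4 := by
  rw [← h]; ring
theorem odePw10 {C S : ℝ} (h : C ^ 2 = S ^ 2 + 1) : C ^ 10 = (S ^ 2 + 1) ^ 5 := by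
  rw [← h]; ring

theorem f1_deriv (z : ℝ) : HasDerivAt f1 (d1 z) z := by
  have hC0 : cosh z ≠ 0 := (cosh_pos z).ne'
  have h := (hasDerivAt_sinh z).fun_div ((hasDerivAt_cosh z).fun_pow 3) (pow_ne_zero 3 hC0)
  refine h.congr_deriv ?_
  unfold d1
  field_simp
  ring

theorem d1_deriv (z : ℝ) : HasDerivAt d1 (-(12 / cosh z ^ 2 - 4) * f1 z) z := by
  have hC0 : cosh z ≠ 0 := (cosh_pos z).ne'
  have h := ((((hasDerivAt_cosh z).fun_pow 2).fun_sub (((hasDerivAt_sinh z).fun_pow 2).const_mul 3)).fun_div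
    ((hasDerivAt_cosh z).fun_pow 4) (pow_ne_zero 4 hC0))
  refine h.congr_deriv ?_
  have hC2 := cosh_sq z
  unfold f1
  generalize cosh z = C at *
  generalize sinh z = S at *
  field_simp
  push_cast
  ring_nf
  simp only [odePw3 hC2, odePw4 hC2, odePw5 hC2, odePw6 hC2, odePw7 hC2, odePw8 hC2, odePw9 hC2, odePw10 hC2, hC2]
  ring

theorem f2_deriv (z : ℝ) : HasDerivAt f2 (d2 z) z := by
  have hC0 : cosh z ≠ 0 := (cosh_pos z).ne'
  have hS := hasDerivAt_sinh z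
  have hC := hasDerivAt_cosh z
  have hz := hasDerivAt_id' z
  have t1 := (hasDerivAt_const z (-1 : ℝ)).fun_div (hC.fun_pow 2) (pow_ne_zero 2 hC0)
  have t2 := (((hz.const_mul (15 / 8 : ℝ)).fun_mul hS)).fun_div (hC.fun_pow 3) (pow_ne_zero 3 hC0)
  have t3 := ((hS.fun_pow 2).const_mul (9 / 8 : ℝ)).fun_div (hC.fun_pow 2) (pow_ne_zero 2 hC0)
  have t4 := ((hS.fun_pow 4).const_mul (1 / 4 : ℝ)).fun_div (hC.fun_pow 2) (pow_ne_zero 2 hC0)
  have h := ((t1.fun_add t2).fun_add t3).fun_add t4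
  refine h.congr_deriv ?_
  have hC2 := cosh_sq z
  unfold d2
  generalize cosh z = C at *
  generalize sinh z = S at *
  field_simp
  push_cast
  ring_nf
  simp only [odePw3 hC2, odePw4 hC2, odePw5 hC2, odePw6 hC2, odePw7 hC2, odePw8 hC2, odePw9 hC2, odePw10 hC2, hC2]
  ring

theorem d2_deriv (z : ℝ) : HasDerivAt d2 (-(12 / cosh z ^ 2 - 4) * f2 z) z := by
  have hC0 : cosh z ≠ 0 := (cosh_pos z).ne'
  have hS := hasDerivAt_sinh z
  have hC := hasDerivAt_cosh z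
  have hz := hasDerivAt_id' z
  have t1 := (hS.const_mul (49 / 8 : ℝ)).fun_div (hC.fun_pow 3) (pow_ne_zero 3 hC0)
  have t2 := ((hz.const_mul (15 / 8 : ℝ)).fun_mul ((hC.fun_pow 2).fun_sub ((hS.fun_pow 2).const_mul 3))).fun_div
    (hC.fun_pow 4) (pow_ne_zero 4 hC0)
  have t3 := (hS.fun_pow 3).fun_div hC hC0
  have t4 := (hS.fun_pow 5).fun_div ((hC.fun_pow 3).const_mul 2) (mul_ne_zero two_ne_zero (pow_ne_zero 3 hC0))
  have h := ((t1.fun_add t2).fun_add t3).fun_sub t4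
  refine h.congr_deriv ?_
  have hC2 := cosh_sq z
  unfold f2
  generalize cosh z = C at *
  generalize sinh z = S at *
  field_simp
  push_cast
  ring_nf
  simp only [odePw3 hC2, odePw4 hC2, odePw5 hC2, odePw6 hC2, odePw7 hC2, odePw8 hC2, odePw9 hC2, odePw10 hC2, hC2]
  ring

theorem wronskian (z : ℝ) : f1 z * d2 z - d1 z * f2 z = 1 := by
  have hC0 : cosh z ≠ 0 := (cosh_pos z).ne'
  have hC2 := cosh_sq z
  unfold f1 d2 d1 f2
  generalize cosh z = C at *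
  generalize sinh z = S at *
  field_simp
  push_cast
  ring_nf
  simp only [odePw3 hC2, odePw4 hC2, odePw5 hC2, odePw6 hC2, odePw7 hC2, odePw8 hC2, odePw9 hC2, odePw10 hC2, hC2]
  ring

theorem u0_deriv (z : ℝ) : HasDerivAt u0 (v0 z) z := by
  have hC0 : cosh z ≠ 0 := (cosh_pos z).ne'
  have h := (hasDerivAt_const z (3 / 2 : ℝ)).fun_div ((hasDerivAt_cosh z).fun_pow 2) (pow_ne_zero 2 hC0)
  refine h.congr_deriv ?_
  unfold v0
  field_simp
  ring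

theorem v0_deriv (z : ℝ) : HasDerivAt v0 (-4 * u0 z * (u0 z - 1)) z := by
  have hC0 : cosh z ≠ 0 := (cosh_pos z).ne'
  have h := ((hasDerivAt_sinh z).const_mul (-3 : ℝ)).fun_div ((hasDerivAt_cosh z).fun_pow 3) (pow_ne_zero 3 hC0)
  refine h.congr_deriv ?_
  have hC2 := cosh_sq z
  unfold u0
  generalize cosh z = C at *
  generalize sinh z = S at *
  field_simp
  push_cast
  ring_nf
  simp only [odePw3 hC2, odePw4 hC2, odePw5 hC2, odePw6 hC2, odePw7 hC2, odePw8 hC2, odePw9 hC2, odePw10 hC2, hC2]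
  ring

end Pool.Agent.R206.GD
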