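import Pool.Agent.R206.GD.SolDef

/-!
Exact statements of the pieces of project GD (MP_b6986b_an, full answer). See NOTES.md.
-/

namespace Pool.Agent.R206.GD.Stm

open Real MeasureTheory Set Filter Topology

/-! ### GD-ODE (module `Pool.Agent.R206.GD.Ode`) -/

theorem f1_deriv (z : ℝ) : HasDerivAt f1 (d1 z) z := sorry
theorem d1_deriv (z : ℝ) : HasDerivAt d1 (-(12 / cosh z ^ 2 - 4) * f1 z) z := sorry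
theorem f2_deriv (z : ℝ) : HasDerivAt f2 (d2 z) z := sorry
theorem d2_deriv (z : ℝ) : HasDerivAt d2 (-(12 / cosh z ^ 2 - 4) * f2 z) z := sorry
theorem wronskian (z : ℝ) : f1 z * d2 z - d1 z * f2 z = 1 := sorry
theorem u0_deriv (z : ℝ) : HasDerivAt u0 (v0 z) z := sorry
theorem v0_deriv (z : ℝ) : HasDerivAt v0 (-4 * u0 z * (u0 z - 1)) z := sorry

/-! ### GD-BD (module `Pool.Agent.R206.GD.Bd`) -/

theorem f1_neg (z : ℝ) : f1 (-z) = - f1 z := sorry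
theorem d1_neg (z : ℝ) : d1 (-z) = d1 z := sorry
theorem f2_neg (z : ℝ) : f2 (-z) = f2 z := sorry
theorem d2_neg (z : ℝ) : d2 (-z) = - d2 z := sorry
theorem u0_neg (z : ℝ) : u0 (-z) = u0 z := sorry
theorem v0_neg (z : ℝ) : v0 (-z) = - v0 z := sorry
theorem f1_bd (z : ℝ) : |f1 z| ≤ 8 * exp (-2 * |z|) := sorry
theorem d1_bd (z : ℝ) : |d1 z| ≤ 8 * exp (-2 * |z|) := sorry
theorem f2_bd (z : ℝ) : |f2 z| ≤ 10 * exp (2 * |z|) := sorry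
theorem d2_bd (z : ℝ) : |d2 z| ≤ 10 * exp (2 * |z|) := sorry
theorem u0_bd (z : ℝ) : |u0 z| ≤ 3 * exp (-|z|) := sorry
theorem v0_bd (z : ℝ) : |v0 z| ≤ 6 * exp (-|z|) := sorry

/-! ### GD-LIN (module `Pool.Agent.R206.GD.Lin`) -/

theorem W_deriv {G : ℝ} {g : ℝ → ℝ} (hg : Adm G g) (z : ℝ) :
    HasDerivAt (W g) (W' g z) z := sorry
theorem W'_deriv {G : ℝ} {g : ℝ → ℝ} (hg : Adm G g) (z : ℝ) :
    HasDerivAt (W' g) (g z - (12 / cosh z ^ 2 - 4) * W g z) z := sorry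
theorem W_neg {G : ℝ} {g : ℝ → ℝ} (hg : Adm G g) (z : ℝ) : W g (-z) = W g z := sorry
theorem W'_neg {G : ℝ} {g : ℝ → ℝ} (hg : Adm G g) (z : ℝ) : W' g (-z) = - W' g z := sorry
theorem W_bd {G : ℝ} {g : ℝ → ℝ} (hg : Adm G g) (z : ℝ) :
    |W g z| ≤ 110 * G * exp (-|z|) := sorry
theorem W'_bd {G : ℝ} {g : ℝ → ℝ} (hg : Adm G g) (z : ℝ) :
    |W' g z| ≤ 110 * G * exp (-|z|) := sorry
theorem W_sub {G : ℝ} {g h : ℝ → ℝ} (hg : Adm G g) (hh : Adm G h) (z : ℝ) :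
    W (fun t => g t - h t) z = W g z - W h z := sorry
theorem W'_sub {G : ℝ} {g h : ℝ → ℝ} (hg : Adm G g) (hh : Adm G h) (z : ℝ) :
    W' (fun t => g t - h t) z = W' g z - W' h z := sorry

/-! ### GD-KER (module `Pool.Agent.R206.GD.Ker`) -/

theorem Mo_deriv {a G : ℝ} (ha : 0 < a) {g : ℝ → ℝ} (hg : Adm G g) (z : ℝ) :
    HasDerivAt (Mo a g) (Mo' a g z) z := sorry
theorem Mo'_deriv {a G : ℝ} (ha : 0 < a) {g : ℝ → ℝ} (hg : Adm G g) (z : ℝ) :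
    HasDerivAt (Mo' a g) ((Mo a g z - g z) / a ^ 2) z := sorry
theorem Mo_neg {a G : ℝ} (ha : 0 < a) {g : ℝ → ℝ} (hg : Adm G g) (z : ℝ) :
    Mo a g (-z) = Mo a g z := sorry
theorem Mo'_neg {a G : ℝ} (ha : 0 < a) {g : ℝ → ℝ} (hg : Adm G g) (z : ℝ) :
    Mo' a g (-z) = - Mo' a g z := sorry
theorem Mo_bd {a G : ℝ} (ha : 0 < a) (ha2 : a ≤ 1 / 2) {g : ℝ → ℝ} (hg : Adm G g) (z : ℝ) :
    |Mo a g z| ≤ 2 * G * exp (-|z|) := sorry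
theorem Mo'_bd {a G : ℝ} (ha : 0 < a) (ha2 : a ≤ 1 / 2) {g : ℝ → ℝ} (hg : Adm G g) (z : ℝ) :
    |Mo' a g z| ≤ 2 * G / a * exp (-|z|) := sorry
theorem Mo_sub {a G : ℝ} (ha : 0 < a) {g h : ℝ → ℝ} (hg : Adm G g) (hh : Adm G h) (z : ℝ) :
    Mo a (fun t => g t - h t) z = Mo a g z - Mo a h z := sorry
theorem Mo'_sub {a G : ℝ} (ha : 0 < a) {g h : ℝ → ℝ} (hg : Adm G g) (hh : Adm G h) (z : ℝ) :
    Mo' a (fun t => g t - h t) z = Mo' a g z - Mo' a h z := sorry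

/-! ### GD-FIX (module `Pool.Agent.R206.GD.Fix`) -/

theorem fix (R1 R2 lam : ℝ) (hR1 : 0 ≤ R1) (hR2 : 0 ≤ R2) (hlam : 0 < lam)
    (Φ Ψ : (ℝ → ℝ) → (ℝ → ℝ) → ℝ → ℝ)
    (h1 : ∀ q g : ℝ → ℝ, Adm R1 q → Adm R2 g → Adm R1 (Φ q g) ∧ Adm R2 (Ψ q g))
    (h2 : ∀ (q g q' g' : ℝ → ℝ) (d : ℝ), Adm R1 q → Adm R2 g → Adm R1 q' → Adm R2 g' → 0 ≤ d →
      (∀ z, |q z - q' z| ≤ lam * d * exp (-|z|)) → (∀ z, |g z - g' z| ≤ d * exp (-|z|)) →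
      (∀ z, |Φ q g z - Φ q' g' z| ≤ lam * (d / 2) * exp (-|z|)) ∧
      (∀ z, |Ψ q g z - Ψ q' g' z| ≤ d / 2 * exp (-|z|))) :
    ∃ q g : ℝ → ℝ, Adm R1 q ∧ Adm R2 g ∧ (∀ z, Φ q g z = q z) ∧ (∀ z, Ψ q g z = g z) := sorry

/-! ### GD-ALG (module `Pool.Agent.R206.GD.Alg`) : pointwise inequalities, only real numbers -/

theorem alg_Q {E e eta u v w p M b : ℝ} (hE : 0 < E) (hE1 : E ≤ 1) (he : 0 < e) (he1 : e ≤ eta)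
    (heta : eta ≤ 1 / 10 ^ 11) (hu : |u| ≤ 3 * E) (hv : |v| ≤ 6 * E)
    (hw : |w| ≤ 11 / 10 ^ 5 * E) (hp : |p| ≤ 11 / 10 ^ 5 * E) (hM : |M| ≤ 20 * E)
    (hb : |b| ≤ 20 * eta * E) :
    |Qf e u v w p M b| ≤ 1 / 10 ^ 6 * E := sorry

theorem alg_F {E e eta s u w M : ℝ} (hE : 0 < E) (hE1 : E ≤ 1) (he : 0 < e) (he1 : e ≤ eta)
    (heta : eta ≤ 1 / 10 ^ 11) (hs : 1 / 2 ≤ s) (hs1 : s ≤ 51 / 100) (hu : |u| ≤ 3 * E)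
    (hw : |w| ≤ 11 / 10 ^ 5 * E) (hM : |M| ≤ 20 * E) :
    |Ff e s (u + w) M| ≤ 10 * E := sorry

theorem alg_Q_lip {E e eta u v w p M b w' p' M' b' d : ℝ} (hE : 0 < E) (hE1 : E ≤ 1)
    (he : 0 < e) (he1 : e ≤ eta)
    (heta : eta ≤ 1 / 10 ^ 11) (hu : |u| ≤ 3 * E) (hv : |v| ≤ 6 * E)
    (hw : |w| ≤ 11 / 10 ^ 5 * E) (hp : |p| ≤ 11 / 10 ^ 5 * E) (hM : |M| ≤ 20 * E)
    (hb : |b| ≤ 20 * eta * E)
    (hw' : |w'| ≤ 11 / 10 ^ 5 * E) (hp' : |p'| ≤ 11 / 10 ^ 5 * E) (hM' : |M'| ≤ 20 * E)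
    (hb' : |b'| ≤ 20 * eta * E) (hd : 0 ≤ d)
    (dw : |w - w'| ≤ 11 / 100 * d * E) (dp : |p - p'| ≤ 11 / 100 * d * E)
    (dM : |M - M'| ≤ 2 * d * E) (db : |b - b'| ≤ 2 * eta * d * E) :
    |Qf e u v w p M b - Qf e u v w' p' M' b'| ≤ 1 / 10 ^ 3 * (d / 2) * E := sorry

theorem alg_F_lip {E e eta s u w M w' M' d : ℝ} (hE : 0 < E) (hE1 : E ≤ 1)
    (he : 0 < e) (he1 : e ≤ eta) (heta : eta ≤ 1 / 10 ^ 11)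
    (hs : 1 / 2 ≤ s) (hs1 : s ≤ 51 / 100) (hu : |u| ≤ 3 * E)
    (hw : |w| ≤ 11 / 10 ^ 5 * E) (hM : |M| ≤ 20 * E)
    (hw' : |w'| ≤ 11 / 10 ^ 5 * E) (hM' : |M'| ≤ 20 * E) (hd : 0 ≤ d)
    (dw : |w - w'| ≤ 11 / 100 * d * E) (dM : |M - M'| ≤ 2 * d * E) :
    |Ff e s (u + w) M - Ff e s (u + w') M'| ≤ d / 2 * E := sorry

/-! ### GD-CON (module `Pool.Agent.R206.GD.Con`) : uses all of the above -/

theorem fp_exists {a : ℝ} (ha : 0 < a) (ha2 : a ≤ 1 / 10 ^ 12) :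
    ∃ q g : ℝ → ℝ, Adm (1 / 10 ^ 6) q ∧ Adm 10 g ∧
      (∀ z, Qf (ep a) (u0 z) (v0 z) (W q z) (W' q z) (Mo a g z) (ep a * Mo' a g z) = q z) ∧
      (∀ z, Ff (ep a) (sp a) (u0 z + W q z) (Mo a g z) = g z) := sorry

theorem sol_exists {a : ℝ} (ha : 0 < a) (ha2 : a ≤ 1 / 10 ^ 12) :
    ∃ U V M Y : ℝ → ℝ, Sol a U V M Y := sorry

/-! ### GD-POS (module `Pool.Agent.R206.GD.Pos`) -/

theorem sol_nonneg {a : ℝ} (ha : 0 < a) (ha2 : a ≤ 1 / 10 ^ 12) {U V M Y : ℝ → ℝ}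
    (h : Sol a U V M Y) (z : ℝ) : 0 ≤ U z := sorry

/-! ### GD-FIN (module `Pool.Agent.R206.GD.Fin`) -/

theorem wave_of_sol {a : ℝ} (ha : 0 < a) (ha2 : a ≤ 1 / 10 ^ 12) {U V M Y : ℝ → ℝ}
    (h : Sol a U V M Y) :
    ∃ P N : ℝ → ℝ, IsWave (sp a) 1 0 P N ∧ (¬ ∀ ξ, P ξ = 0) ∧ ¬ Monotone P ∧ ¬ Antitone N := sorry

end Pool.Agent.R206.GD.Stm
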